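import Pool.Agent.KS6_69.Lin.CI

/-!
Normal forms for c.e. predicates, the halting problem in stage form, and numberings.
-/

set_option autoImplicit false

namespace Pool.Agent.KS6_69.H37

open Encodable Nat.Partrec Nat.Partrec.Code

variable {α β γ : Type} [Primcodable α] [Primcodable β] [Primcodable γ]

theorem computablePred_iff {p : α → Prop} :
    ComputablePred p ↔ ∃ f : α → Bool, CI ∅ f ∧ ∀ a, p a ↔ f a = true := by
  rw [ComputablePred.computable_iff]
  constructor
  · rintro ⟨f, hf, rfl⟩; exact ⟨f, CI.of_comp hf, fun a => Iff.rfl⟩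
  · rintro ⟨f, hf, h⟩; exact ⟨f, hf.computable, funext fun a => propext (h a)⟩

theorem computablePred_of {p : α → Prop} (f : α → Bool) (hf : CI ∅ f)
    (h : ∀ a, p a ↔ f a = true) : ComputablePred p := computablePred_iff.2 ⟨f, hf, h⟩

theorem partrec_of_ri {f : α →. β} (h : RecursiveIn ∅ f) : Partrec f := recursiveIn_empty_iff.1 h

theorem re_of_nat {p : α → Prop} (D : α → ℕ → Bool) (hD : CI ∅ fun q : α × ℕ => D q.1 q.2)
    (h : ∀ a, p a ↔ ∃ s, D a s = true) : REPred p := by
  have := (partrec_of_ri (RI.rfind (p := fun a n => Part.some (D a n)) hD.ri)).dom_re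
  refine this.of_eq fun a => ?_
  rw [h, Nat.rfind_dom]
  simp

/-- projections of computable relations are c.e. -/
theorem re_of_exists {p : α → Prop} (D : α → β → Bool) (hD : CI ∅ fun q : α × β => D q.1 q.2)
    (h : ∀ a, p a ↔ ∃ b, D a b = true) : REPred p := by
  refine re_of_nat (fun a n => (decode (α := β) n).elim false (D a)) ?_ fun a => ?_
  · refine CI.elim (by fun_prop) (by fun_prop) ?_
    exact hD.comp (g := fun q : (α × ℕ) × β => (q.1.1, q.2)) (by fun_prop)
  · rw [h]
    constructor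
    · rintro ⟨b, hb⟩; exact ⟨encode b, by simpa using hb⟩
    · rintro ⟨n, hn⟩
      cases e : decode (α := β) n with
      | none => simp [e] at hn
      | some b => exact ⟨b, by simpa [e] using hn⟩

/-- stage approximation of a partial recursive function -/
theorem partrec_stage {f : α →. β} (hf : Partrec f) :
    ∃ F : α → ℕ → Option β, CI ∅ (fun q : α × ℕ => F q.1 q.2) ∧
      (∀ a s t b, s ≤ t → F a s = some b → F a t = some b) ∧
      ∀ a b, b ∈ f a ↔ ∃ s, F a s = some b := by
  obtain ⟨c, hc⟩ := exists_code.1 hf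
  refine ⟨fun a s => (evaln s c (encode a)).bind fun v => decode v, by fun_prop, ?_, ?_⟩
  · intro a s t b hst h
    simp only [Option.bind_eq_some_iff] at h ⊢
    obtain ⟨v, hv, hb⟩ := h
    exact ⟨v, evaln_mono hst hv, hb⟩
  · intro a b
    have key : ∀ v, v ∈ eval c (encode a) ↔ ∃ b ∈ f a, encode b = v := by
      intro v; rw [hc]; simp
    constructor
    · intro hb
      obtain ⟨s, hs⟩ := evaln_complete.1 ((key _).2 ⟨b, hb, rfl⟩)
      exact ⟨s, by simp only [Option.bind_eq_some_iff]; exact ⟨_, hs, by simp⟩⟩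
    · rintro ⟨s, hs⟩
      simp only [Option.bind_eq_some_iff] at hs
      obtain ⟨v, hv, hb⟩ := hs
      obtain ⟨b', hb', rfl⟩ := (key v).1 (evaln_sound hv)
      simp only [encodek, Option.some.injEq] at hb
      exact hb ▸ hb'

/-- stage approximation of a c.e. predicate -/
theorem re_stage {p : α → Prop} (hp : REPred p) :
    ∃ D : α → ℕ → Bool, CI ∅ (fun q : α × ℕ => D q.1 q.2) ∧
      (∀ a s t, s ≤ t → D a s = true → D a t = true) ∧ ∀ a, p a ↔ ∃ s, D a s = true := by
  obtain ⟨F, hF, hm, h⟩ := partrec_stage hp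
  refine ⟨fun a s => (F a s).isSome, by fun_prop, fun a s t hst hs => ?_, fun a => ?_⟩
  · obtain ⟨b, hb⟩ := Option.isSome_iff_exists.1 hs
    simp [hm a s t b hst hb]
  · have := h a ()
    simp only [Part.mem_assert_iff, Part.mem_some_iff, exists_prop, and_true] at this
    rw [this]
    refine exists_congr fun s => ?_
    beta_reduce
    cases F a s <;> simp

theorem REPred.comp' {p : β → Prop} (hp : REPred p) {g : α → β} (hg : CI ∅ g) :
    REPred fun a => p (g a) := Partrec.comp hp hg.computable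

theorem re_and {p q : α → Prop} (hp : REPred p) (hq : REPred q) : REPred fun a => p a ∧ q a := by
  obtain ⟨D, hD, hm, h⟩ := re_stage hp
  obtain ⟨E, hE, hm', h'⟩ := re_stage hq
  refine re_of_nat (fun a s => D a s && E a s) (by fun_prop) fun a => ?_
  rw [h, h']
  constructor
  · rintro ⟨⟨s, hs⟩, t, ht⟩
    exact ⟨max s t, by simp [hm a s _ (le_max_left s t) hs, hm' a t _ (le_max_right s t) ht]⟩
  · rintro ⟨s, hs⟩
    simp only [Bool.and_eq_true] at hs
    exact ⟨⟨s, hs.1⟩, s, hs.2⟩

theorem re_or {p q : α → Prop} (hp : REPred p) (hq : REPred q) : REPred fun a => p a ∨ q a := by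
  obtain ⟨D, hD, -, h⟩ := re_stage hp
  obtain ⟨E, hE, -, h'⟩ := re_stage hq
  refine re_of_nat (fun a s => D a s || E a s) (by fun_prop) fun a => ?_
  rw [h, h']
  simp [exists_or]

theorem re_exists {p : α → β → Prop} (hp : REPred fun q : α × β => p q.1 q.2) :
    REPred fun a => ∃ b, p a b := by
  obtain ⟨D, hD, -, h⟩ := re_stage hp
  refine re_of_exists (fun a (b : β × ℕ) => D (a, b.1) b.2) ?_ fun a => ?_
  · exact hD.comp (g := fun q : α × β × ℕ => ((q.1, q.2.1), q.2.2)) (by fun_prop)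
  · constructor
    · rintro ⟨b, hb⟩
      obtain ⟨s, hs⟩ := (h (a, b)).1 hb
      exact ⟨(b, s), hs⟩
    · rintro ⟨⟨b, s⟩, hs⟩
      exact ⟨b, (h (a, b)).2 ⟨s, hs⟩⟩

theorem exists_stage_all {ι : Type} (l : List ι) (D : ι → ℕ → Bool)
    (hm : ∀ a s t, s ≤ t → D a s = true → D a t = true) (h : ∀ a ∈ l, ∃ s, D a s = true) :
    ∃ s, ∀ t, s ≤ t → ∀ a ∈ l, D a t = true := by
  induction l with
  | nil => exact ⟨0, by simp⟩
  | cons a l ih =>
    obtain ⟨s, hs⟩ := ih fun b hb => h b (List.mem_cons_of_mem _ hb)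
    obtain ⟨s', hs'⟩ := h a List.mem_cons_self
    refine ⟨max s s', fun t ht b hb => ?_⟩
    rcases List.mem_cons.1 hb with rfl | hb
    · exact hm _ _ _ (le_trans (le_max_right _ _) ht) hs'
    · exact hs t (le_trans (le_max_left _ _) ht) b hb

theorem re_forall_mem {p : α → β → Prop} (hp : REPred fun q : α × β => p q.1 q.2)
    {l : α → List β} (hl : CI ∅ l) : REPred fun a => ∀ b ∈ l a, p a b := by
  obtain ⟨D, hD, hm, h⟩ := re_stage hp
  refine re_of_nat (fun a s => (l a).all fun b => D (a, b) s) ?_ fun a => ?_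
  · refine CI.all (by fun_prop) ?_
    exact hD.comp (g := fun q : (α × ℕ) × β => ((q.1.1, q.2), q.1.2)) (by fun_prop)
  · constructor
    · intro H
      obtain ⟨s, hs⟩ := exists_stage_all (l a) (fun b s => D (a, b) s) (fun b => hm (a, b))
        fun b hb => (h (a, b)).1 (H b hb)
      exact ⟨s, by simpa using hs s le_rfl⟩
    · rintro ⟨s, hs⟩ b hb
      exact (h (a, b)).2 ⟨s, by simpa using List.all_eq_true.1 hs b hb⟩

/-- a c.e. relation that is total has a computable selector -/
theorem re_choice {p : α → β → Prop} (hp : REPred fun q : α × β => p q.1 q.2)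
    (h : ∀ a, ∃ b, p a b) : ∃ f : α → β, CI ∅ f ∧ ∀ a, p a (f a) := by
  obtain ⟨D, hD, -, hh⟩ := re_stage hp
  obtain ⟨f, hf, H⟩ := CI.exists_choice (O := ∅) (p := fun a (b : β × ℕ) => D (a, b.1) b.2)
    (hD.comp (g := fun q : α × β × ℕ => ((q.1, q.2.1), q.2.2)) (by fun_prop)) fun a => by
      obtain ⟨b, hb⟩ := h a
      obtain ⟨s, hs⟩ := (hh (a, b)).1 hb
      exact ⟨(b, s), hs⟩
  exact ⟨fun a => (f a).1, by fun_prop, fun a => (hh (a, (f a).1)).2 ⟨_, H a⟩⟩

end Pool.Agent.KS6_69.H37
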