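import Pool.Agent.KS6_69.Lin.Dens
import Pool.Agent.KS6_69.Lin.RE

set_option autoImplicit false

namespace Pool.Agent.KS6_69.Lin
open Finset Function BigOperators Pool.Agent.KS6_69.H37

def dig (b X i : ℕ) : ℕ := X / b ^ i % b

lemma exists_dig {b k : ℕ} (f : Fin k → ℕ) (hf : ∀ i, f i < b) :
    ∃ X < b ^ k, ∀ i : Fin k, dig b X i = f i :=
  ⟨_, (finFunctionFinEquiv fun i => (⟨f i, hf i⟩ : Fin b)).2, fun i =>
    congrArg Fin.val (congrFun (finFunctionFinEquiv.symm_apply_apply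
      fun i => (⟨f i, hf i⟩ : Fin b)) i)⟩

lemma fin_all {n : ℕ} {p : ℕ → Prop} : (∀ x < n, p x) ↔ ∀ i : Fin n, p i :=
  ⟨fun h i => h i i.2, fun h x hx => h ⟨x, hx⟩⟩

lemma exists_bits {k : ℕ} (p : Fin k → Prop) : ∃ X < 2 ^ k, ∀ i : Fin k, dig 2 X i = 1 ↔ p i := by
  classical
  obtain ⟨X, h1, h2⟩ := exists_dig (b := 2) (fun i => if p i then 1 else 0)
    (fun i => by split_ifs <;> norm_num)
  exact ⟨X, h1, fun i => by rw [h2]; split_ifs <;> simp [*]⟩

def vec (e n a : ℕ) : Fin n → ZMod e := fun j => ((a / e ^ (j : ℕ) : ℕ) : ZMod e)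

lemma vec_surj {e n : ℕ} [NeZero e] (v : Fin n → ZMod e) : ∃ a < e ^ n, vec e n a = v := by
  obtain ⟨a, h1, h2⟩ := exists_dig (b := e) (fun i => (v i).val) fun i => ZMod.val_lt _
  refine ⟨a, h1, funext fun j => ?_⟩
  rw [vec, ← ZMod.natCast_mod, ← ZMod.natCast_zmod_val (v j), ← h2]; rfl

def tup (e n k X : ℕ) : Fin k → Fin n → ZMod e := fun i => vec e n (dig (e ^ n) X i)

def setB (e n β : ℕ) : Set (Fin n → ZMod e) := {v | ∃ b < e ^ n, dig 2 β b = 1 ∧ v = vec e n b}

lemma vec_inj {e n : ℕ} [NeZero e] {a b : ℕ} (ha : a < e ^ n) (hb : b < e ^ n)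
    (h : vec e n a = vec e n b) : a = b := by
  have hbij : Bijective fun a : Fin (e ^ n) => vec e n a := by
    refine (Fintype.bijective_iff_surjective_and_card _).2 ⟨fun v => ?_, by simp [ZMod.card]⟩
    obtain ⟨a, ha, h⟩ := vec_surj v
    exact ⟨⟨a, ha⟩, h⟩
  exact congrArg Fin.val (hbij.1 (show vec e n (⟨a, ha⟩ : Fin _).1 = vec e n (⟨b, hb⟩ : Fin _).1
    from h))

lemma setB_surj {e n : ℕ} [NeZero e] (B : Set (Fin n → ZMod e)) :
    ∃ β < 2 ^ e ^ n, setB e n β = B := by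
  obtain ⟨β, h1, h2⟩ := exists_bits (k := e ^ n) fun b => vec e n b ∈ B
  refine ⟨β, h1, Set.ext fun v => ⟨?_, fun hv => ?_⟩⟩
  · rintro ⟨b, hb, h, rfl⟩
    exact (h2 ⟨b, hb⟩).1 h
  · obtain ⟨b, hb, rfl⟩ := vec_surj v
    exact ⟨b, hb, (h2 ⟨b, hb⟩).2 hv, rfl⟩

def memb (e n β k X r ι : ℕ) : Bool :=
  (List.range (e ^ n)).any fun b => decide (dig 2 β b = 1) && (List.range n).all fun j =>
    decide (((List.range k).map fun i => dig 2 ι i * (dig (e ^ n) X (dig k r i) / e ^ j)).sum % e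
      = b / e ^ j % e)

def edge (L : List (List ℕ)) (k ι : ℕ) : Bool :=
  L.any fun l => (List.range k).all fun i => decide (dig 2 ι i = 1) == l.contains i

def FFb (c : Code) (e n β X : ℕ) : Bool :=
  (List.range ((c.1 + 1) ^ (c.1 + 1))).any fun r =>
    ((List.range (c.1 + 1)).all fun i => (List.range (c.1 + 1)).all fun j =>
      !decide (dig (c.1 + 1) r i = dig (c.1 + 1) r j) || decide (i = j)) &&
    (List.range (2 ^ (c.1 + 1))).all fun ι =>
      !((List.range (c.1 + 1)).any fun i => decide (dig 2 ι i = 1)) ||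
        (edge c.2 (c.1 + 1) ι == memb e n β (c.1 + 1) X r ι)

lemma memb_iff {e n β k X r ι : ℕ} (E : Fin k → Fin k) (hE : ∀ i : Fin k, dig k r i = E i)
    (I : Finset (Fin k)) (hI : ∀ i : Fin k, dig 2 ι i = 1 ↔ i ∈ I) :
    memb e n β k X r ι = true ↔ ∑ i ∈ I, tup e n k X (E i) ∈ setB e n β := by
  simp only [memb, List.any_eq_true, List.mem_range, Bool.and_eq_true, decide_eq_true_eq,
    List.all_eq_true, setB, Set.mem_setOf_eq]
  refine exists_congr fun b => and_congr_right fun _ => and_congr_right fun _ => ?_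
  rw [funext_iff, fin_all]
  refine forall_congr' fun j => ?_
  have hs : ∀ f : ℕ → ℕ, ((List.range k).map f).sum = ∑ i : Fin k, f i := fun f => by
    rw [← sum_range]; rfl
  rw [← ZMod.natCast_eq_natCast_iff', vec, hs,
    Nat.cast_sum, Finset.sum_apply, ← sum_filter_of_ne (p := (· ∈ I)), filter_mem_eq_inter, univ_inter]
  · refine Eq.congr_left (sum_congr rfl fun i hi => ?_)
    rw [(hI i).2 hi, hE, one_mul]; rfl
  · intro i _ h
    by_contra hi
    have := mt (hI i).1 hi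
    have h2 : dig 2 ι i < 2 := Nat.mod_lt _ (by norm_num)
    exact h (by rw [show dig 2 ι i = 0 by omega]; simp)

lemma edge_iff (c : Code) {ι : ℕ} (I : Finset (Fin (c.1 + 1))) (h : I.Nonempty)
    (hI : ∀ i : Fin (c.1 + 1), dig 2 ι i = 1 ↔ i ∈ I) :
    edge c.2 (c.1 + 1) ι = true ↔ I ∈ (model c).E := by
  refine Iff.trans ?_ (mem_filter_univ I).symm
  simp only [edge, List.any_eq_true, List.all_eq_true, List.mem_range, true_and, h]
  refine exists_congr fun l => and_congr_right fun _ => ?_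
  rw [fin_all]
  refine forall_congr' fun i => ?_
  rw [← hI, beq_iff_eq, Bool.eq_iff_iff]; simp

lemma FFb_iff (c : Code) (e n β X : ℕ) :
    FFb c e n β X = true ↔ FF (model c) (setB e n β) (tup e n (c.1 + 1) X) := by
  simp only [FFb, List.any_eq_true, List.mem_range, Bool.and_eq_true, List.all_eq_true,
    Bool.or_eq_true, Bool.not_eq_true', decide_eq_false_iff_not, decide_eq_true_eq, beq_iff_eq,
    ← Bool.not_eq_true, ← imp_iff_not_or]
  constructor
  · rintro ⟨r, -, h1, h2⟩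
    refine ⟨fun i => ⟨dig (c.1 + 1) r i, Nat.mod_lt _ (by omega)⟩,
      fun i j h => Fin.ext (h1 i i.2 j j.2 (congrArg Fin.val h)), fun I hI => ?_⟩
    obtain ⟨ι, h3, h4⟩ := exists_bits (k := c.1 + 1) (· ∈ I)
    obtain ⟨i, hi⟩ := id hI
    refine (edge_iff c I hI h4).symm.trans ?_
    rw [h2 ι h3 ⟨i, i.2, (h4 i).2 hi⟩]
    exact memb_iff (k := c.1 + 1) _ (fun _ => rfl) I h4
  · rintro ⟨E, h1, h2⟩
    obtain ⟨r, h3, h4⟩ := exists_dig (b := c.1 + 1) (fun i => (E i : ℕ)) fun i => (E i).2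
    refine ⟨r, h3, fun i hi j hj h => ?_, fun ι _ ⟨i, hi, h⟩ => ?_⟩
    · have := h1 (Fin.ext ((h4 ⟨i, hi⟩).symm.trans (h.trans (h4 ⟨j, hj⟩))))
      exact congrArg Fin.val this
    · let I : Finset (Fin (c.1 + 1)) := {i | dig 2 ι i = 1}
      have hI : ∀ i : Fin (c.1 + 1), dig 2 ι i = 1 ↔ i ∈ I := fun i => by simp [I]
      have ne : I.Nonempty := ⟨⟨i, hi⟩, (hI _).1 h⟩
      exact Bool.eq_iff_iff.2 ((edge_iff c I ne hI).trans ((h2 I ne).trans
        (memb_iff (k := c.1 + 1) E h4 I hI).symm))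

/-- number of `(c.1 + 1)`-tuples counted by `q` -/
def cnt (c : Code) (e n β : ℕ) : ℕ :=
  (List.range ((e ^ n) ^ (c.1 + 1))).countP (FFb c e n β)

lemma q_eq (c : Code) (e n β : ℕ) [NeZero e] :
    q (model c) (setB e n β) = cnt c e n β / ((e : ℝ) ^ n) ^ (c.1 + 1) := by
  classical
  have hb : Bijective fun X : Fin ((e ^ n) ^ (c.1 + 1)) => tup e n (c.1 + 1) X := by
    refine (Fintype.bijective_iff_surjective_and_card _).2 ⟨fun x => ?_, by simp [ZMod.card]⟩
    choose a ha1 ha2 using fun i => vec_surj (x i)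
    obtain ⟨X, h1, h2⟩ := exists_dig a ha1
    exact ⟨⟨X, h1⟩, funext fun i => by rw [← ha2, ← h2]; rfl⟩
  refine (Fintype.expect_bijective _ hb (fun X => if FFb c e n β X = true then (1 : ℝ) else 0) _
    (fun X => by simp only [FFb_iff])).symm.trans ?_
  rw [expect_eq_sum_div_card, card_univ, Fintype.card_fin,
    ← sum_range (fun X => if FFb c e n β X = true then (1 : ℝ) else 0), sum_boole, cnt,
    List.countP_eq_length_filter]
  push_cast
  congr 2
  show ((List.range _).filter fun x => decide (FFb c e n β x = true)).length = _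
  simp only [Bool.decide_eq_true]

/-! ### polynomials -/

/-- weight of a term -/
def wtt (t : ℤ × List Code) : ℕ := (t.2.map fun c => c.1 + 1).sum

/-- total weight -/
def wt (P : Poly) : ℕ := (P.map wtt).sum

/-- Lipschitz constant -/
def lip (P : Poly) : ℕ := (P.map fun t => (t.1.toNat + (-t.1).toNat) * t.2.length).sum

def posv (P : Poly) (W e n β : ℕ) : ℕ :=
  (P.map fun t => t.1.toNat * (t.2.map fun c => cnt c e n β).prod * (e ^ n) ^ (W - wtt t)).sum

def negv (P : Poly) (W e n β : ℕ) : ℕ :=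
  (P.map fun t => (-t.1).toNat * (t.2.map fun c => cnt c e n β).prod * (e ^ n) ^ (W - wtt t)).sum

lemma prod_cnt (l : List Code) (e n β : ℕ) [NeZero e] :
    (l.map fun c => qpt (setB e n β) (cls c)).prod * ((e : ℝ) ^ n) ^ (l.map fun c => c.1 + 1).sum =
      ((l.map fun c => cnt c e n β).prod : ℕ) := by
  induction l with
  | nil => simp
  | cons c l ih =>
    simp only [List.map_cons, List.prod_cons, List.sum_cons, pow_add, Nat.cast_mul]
    rw [← ih, qpt_cls, q_eq]
    have he : ((e : ℝ) ^ n) ^ (c.1 + 1) ≠ 0 := by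
      have : (e : ℝ) ≠ 0 := by exact_mod_cast NeZero.ne e
      positivity
    field_simp
    ring

lemma ev_qpt (P : Poly) (W e n β : ℕ) [NeZero e] (hW : ∀ t ∈ P, wtt t ≤ W) :
    ev P (qpt (setB e n β)) * ((e : ℝ) ^ n) ^ W = posv P W e n β - negv P W e n β := by
  induction P with
  | nil => simp [ev, posv, negv]
  | cons t P ih =>
    have h1 := ih fun s hs => hW s (List.mem_cons_of_mem _ hs)
    have h2 : wtt t ≤ W := hW t List.mem_cons_self
    simp only [ev, posv, negv, List.map_cons, List.sum_cons] at h1 ⊢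
    rw [add_mul, h1]
    push_cast
    have h3 : ((e : ℝ) ^ n) ^ W = ((e : ℝ) ^ n) ^ (wtt t) * ((e : ℝ) ^ n) ^ (W - wtt t) := by
      rw [← pow_add]; congr 1; omega
    have h4 := prod_cnt t.2 e n β
    have h5 : (t.1 : ℝ) = (t.1.toNat : ℝ) - ((-t.1).toNat : ℝ) := by
      exact_mod_cast (Int.toNat_sub_toNat_neg t.1).symm
    have h6 : (t.1 : ℝ) * (t.2.map fun c => qpt (setB e n β) (cls c)).prod *
        ((e : ℝ) ^ n) ^ W = ((t.1.toNat : ℝ) - ((-t.1).toNat : ℝ)) *
          (((t.2.map fun c => cnt c e n β).prod : ℕ) : ℝ) * ((e : ℝ) ^ n) ^ (W - wtt t) := by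
      rw [h3, ← h4, h5, wtt]; ring
    rw [h6]
    push_cast
    ring

lemma wtt_le (P : Poly) : ∀ t ∈ P, wtt t ≤ wt P := fun _ ht =>
  List.single_le_sum (by simp) _ (List.mem_map_of_mem ht)

lemma prod_lip {x y : Cls → ℝ} (hx : ∀ M, 0 ≤ x M ∧ x M ≤ 1) (hy : ∀ M, 0 ≤ y M ∧ y M ≤ 1)
    {δ : ℝ} (l : List Code) (h : ∀ c ∈ l, |x (cls c) - y (cls c)| ≤ δ) :
    |(l.map fun c => x (cls c)).prod - (l.map fun c => y (cls c)).prod| ≤ l.length * δ ∧
      (0 ≤ (l.map fun c => x (cls c)).prod ∧ (l.map fun c => x (cls c)).prod ≤ 1) := by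
  induction l with
  | nil => simp
  | cons c l ih =>
    obtain ⟨h1, h2, h3⟩ := ih fun d hd => h d (List.mem_cons_of_mem _ hd)
    have h4 := h c List.mem_cons_self
    simp only [List.map_cons, List.prod_cons, List.length_cons]
    refine ⟨?_, mul_nonneg (hx _).1 h2, mul_le_one₀ (hx _).2 h2 h3⟩
    calc |x (cls c) * (l.map fun c => x (cls c)).prod - y (cls c) * (l.map fun c => y (cls c)).prod|
        = |(x (cls c) - y (cls c)) * (l.map fun c => x (cls c)).prod + y (cls c) *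
            ((l.map fun c => x (cls c)).prod - (l.map fun c => y (cls c)).prod)| := by
          congr 1; ring
      _ ≤ |x (cls c) - y (cls c)| * |(l.map fun c => x (cls c)).prod| + |y (cls c)| *
            |(l.map fun c => x (cls c)).prod - (l.map fun c => y (cls c)).prod| := by
          rw [← abs_mul, ← abs_mul]; exact abs_add_le _ _
      _ ≤ δ * 1 + 1 * (l.length * δ) := by
          rw [abs_of_nonneg h2, abs_of_nonneg (hy _).1]
          have hδ : 0 ≤ δ := (abs_nonneg _).trans h4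
          gcongr
          exact (hy _).2
      _ = ((l.length + 1 : ℕ) : ℝ) * δ := by push_cast; ring

lemma ev_lip {x y : Cls → ℝ} (hx : ∀ M, 0 ≤ x M ∧ x M ≤ 1) (hy : ∀ M, 0 ≤ y M ∧ y M ≤ 1)
    {δ : ℝ} (P : Poly) (h : ∀ t ∈ P, ∀ c ∈ t.2, |x (cls c) - y (cls c)| ≤ δ) :
    |ev P x - ev P y| ≤ lip P * δ := by
  induction P with
  | nil => simp [ev, lip]
  | cons t P ih =>
    have h1 := ih fun s hs => h s (List.mem_cons_of_mem _ hs)
    have h2 := (prod_lip hx hy t.2 (h t List.mem_cons_self)).1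
    simp only [ev, lip, List.map_cons, List.sum_cons] at h1 ⊢
    have h5 : |(t.1 : ℝ)| = ((t.1.toNat + (-t.1).toNat : ℕ) : ℝ) := by
      rcases le_total 0 t.1 with h | h
      · have h6 : (-t.1).toNat = 0 := Int.toNat_of_nonpos (by omega)
        rw [h6, add_zero, abs_of_nonneg (by exact_mod_cast h)]
        exact_mod_cast (Int.toNat_of_nonneg h).symm
      · have h6 : t.1.toNat = 0 := Int.toNat_of_nonpos (by omega)
        rw [h6, zero_add, abs_of_nonpos (by exact_mod_cast h)]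
        exact_mod_cast (Int.toNat_of_nonneg (by omega : 0 ≤ -t.1)).symm
    calc _ = |(t.1 : ℝ) * ((t.2.map fun c => x (cls c)).prod - (t.2.map fun c => y (cls c)).prod) +
          ((P.map fun t => (t.1 : ℝ) * (t.2.map fun c => x (cls c)).prod).sum -
            (P.map fun t => (t.1 : ℝ) * (t.2.map fun c => y (cls c)).prod).sum)| := by
          congr 1; ring
      _ ≤ |(t.1 : ℝ)| * |(t.2.map fun c => x (cls c)).prod - (t.2.map fun c => y (cls c)).prod| +
          |(P.map fun t => (t.1 : ℝ) * (t.2.map fun c => x (cls c)).prod).sum -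
            (P.map fun t => (t.1 : ℝ) * (t.2.map fun c => y (cls c)).prod).sum| := by
          rw [← abs_mul]; exact abs_add_le _ _
      _ ≤ ((t.1.toNat + (-t.1).toNat : ℕ) : ℝ) * (t.2.length * δ) + lip P * δ := by
          rw [h5]; gcongr; exact h1
      _ = _ := by simp only [lip]; push_cast; ring

lemma ev_cont (P : Poly) : Continuous (ev P) :=
  continuous_list_sum _ fun t _ =>
    continuous_const.mul (continuous_list_prod _ fun c _ => continuous_apply _)

/-! ### computability -/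

section
variable {α : Type} [Primcodable α]

@[fun_prop] lemma ci_dig {b X i : α → ℕ} (h1 : CI ∅ b) (h2 : CI ∅ X) (h3 : CI ∅ i) :
    CI ∅ fun a => dig (b a) (X a) (i a) := by unfold dig; fun_prop

@[fun_prop] lemma ci_memb {e n β k X r ι : α → ℕ} (h0 : CI ∅ e) (h1 : CI ∅ n) (h2 : CI ∅ β)
    (h3 : CI ∅ k) (h4 : CI ∅ X) (h5 : CI ∅ r) (h6 : CI ∅ ι) :
    CI ∅ fun a => memb (e a) (n a) (β a) (k a) (X a) (r a) (ι a) := by unfold memb; fun_prop

@[fun_prop] lemma ci_edge {L : α → List (List ℕ)} {k ι : α → ℕ} (h1 : CI ∅ L) (h2 : CI ∅ k)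
    (h3 : CI ∅ ι) : CI ∅ fun a => edge (L a) (k a) (ι a) := by unfold edge; fun_prop

@[fun_prop] lemma ci_FFb {c : α → Code} {e n β X : α → ℕ} (h1 : CI ∅ c) (h0 : CI ∅ e)
    (h2 : CI ∅ n) (h3 : CI ∅ β) (h4 : CI ∅ X) :
    CI ∅ fun a => FFb (c a) (e a) (n a) (β a) (X a) := by
  unfold FFb; fun_prop

@[fun_prop] lemma ci_cnt {c : α → Code} {e n β : α → ℕ} (h1 : CI ∅ c) (h0 : CI ∅ e)
    (h2 : CI ∅ n) (h3 : CI ∅ β) : CI ∅ fun a => cnt (c a) (e a) (n a) (β a) := by
  unfold cnt; fun_prop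

@[fun_prop] lemma ci_prod {l : α → List ℕ} (hl : CI ∅ l) : CI ∅ fun a => (l a).prod :=
  (CI.foldr (f := fun _ b s => b * s) (by fun_prop) (CI.const 1) hl).of_eq fun a => by
    induction l a <;> simp [*]

@[fun_prop] lemma ci_toNat {f : α → ℤ} (h : CI ∅ f) : CI ∅ fun a => (f a).toNat :=
  CI.prim1 (p := fun z : ℤ => z.toNat) ((Primrec.cond
    (Primrec.nat_bodd.comp Primrec.encode) (Primrec.const 0)
    (Primrec.nat_div2.comp Primrec.encode)).of_eq fun z => by
      rcases z with n | n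
      · show cond (Nat.bodd (2 * n)) 0 (Nat.div2 (2 * n)) = n
        simp
      · show cond (Nat.bodd (2 * n + 1)) 0 (Nat.div2 (2 * n + 1)) = 0
        simp) h

@[fun_prop] lemma ci_negToNat {f : α → ℤ} (h : CI ∅ f) : CI ∅ fun a => (-(f a)).toNat :=
  CI.prim1 (p := fun z : ℤ => (-z).toNat) ((Primrec.cond
    (Primrec.nat_bodd.comp Primrec.encode)
    (Primrec.succ.comp (Primrec.nat_div2.comp Primrec.encode)) (Primrec.const 0)).of_eq fun z => by
      rcases z with n | n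
      · show cond (Nat.bodd (2 * n)) (Nat.div2 (2 * n)).succ 0 = (-(n : ℤ)).toNat
        simp
      · show cond (Nat.bodd (2 * n + 1)) (Nat.div2 (2 * n + 1)).succ 0 = (-(Int.negSucc n)).toNat
        simp [Int.neg_negSucc]) h

@[fun_prop] lemma ci_wtt {t : α → ℤ × List Code} (h : CI ∅ t) : CI ∅ fun a => wtt (t a) := by
  unfold wtt; fun_prop

@[fun_prop] lemma ci_wt {P : α → Poly} (h : CI ∅ P) : CI ∅ fun a => wt (P a) := by
  unfold wt; fun_prop

@[fun_prop] lemma ci_lip {P : α → Poly} (h : CI ∅ P) : CI ∅ fun a => lip (P a) := by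
  unfold lip; fun_prop

@[fun_prop] lemma ci_posv {P : α → Poly} {W e n β : α → ℕ} (h1 : CI ∅ P) (h2 : CI ∅ W)
    (h3 : CI ∅ e) (h4 : CI ∅ n) (h5 : CI ∅ β) :
    CI ∅ fun a => posv (P a) (W a) (e a) (n a) (β a) := by
  unfold posv; fun_prop

@[fun_prop] lemma ci_negv {P : α → Poly} {W e n β : α → ℕ} (h1 : CI ∅ P) (h2 : CI ∅ W)
    (h3 : CI ∅ e) (h4 : CI ∅ n) (h5 : CI ∅ β) :
    CI ∅ fun a => negv (P a) (W a) (e a) (n a) (β a) := by
  unfold negv; fun_prop

end

/-- the codes occurring in `P` -/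
def codes (P : Poly) : List Code := P.flatMap fun t => t.2

/-- a certificate `(N, n, K)` that `P` is positive on the `e`-lineons -/
def posb (e : ℕ) (P : Poly) (N n K : ℕ) : Bool :=
  decide (2 ≤ e) && ((codes P).all fun c => decide (c.1 + 1 ≤ K)) &&
    decide ((codes P).length * N ^ 2 * (2 * K * e ^ (2 * K)) + 1 ≤ n) &&
    (List.range (2 ^ e ^ n)).all fun β =>
      decide (3 * lip P * (e ^ n) ^ wt P + N * negv P (wt P) e n β < N * posv P (wt P) e n β)

/-- a certificate `(n, β)` that `P` is negative at some `e`-lineon -/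
def negb (e : ℕ) (P : Poly) (n β : ℕ) : Bool :=
  decide (2 ≤ e) && decide (posv P (wt P) e n β < negv P (wt P) e n β)

section
variable {α : Type} [Primcodable α]

@[fun_prop] lemma ci_codes {P : α → Poly} (h : CI ∅ P) : CI ∅ fun a => codes (P a) := by
  unfold codes; fun_prop

@[fun_prop] lemma ci_posb {P : α → Poly} {e N n K : α → ℕ} (h1 : CI ∅ P) (h2 : CI ∅ e)
    (h3 : CI ∅ N) (h4 : CI ∅ n) (h5 : CI ∅ K) :
    CI ∅ fun a => posb (e a) (P a) (N a) (n a) (K a) := by
  unfold posb; fun_prop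

@[fun_prop] lemma ci_negb {P : α → Poly} {e n β : α → ℕ} (h1 : CI ∅ P) (h2 : CI ∅ e)
    (h3 : CI ∅ n) (h4 : CI ∅ β) :
    CI ∅ fun a => negb (e a) (P a) (n a) (β a) := by
  unfold negb; fun_prop

end

end Pool.Agent.KS6_69.Lin
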