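import Mathlib

/-!
Definitions for MP_236854_co: finite models of `T_Lin`, their isomorphism classes, densities, the
models `M_A` over a finite abelian group, lineons over a finite abelian group and over all finite
abelian groups killed by `e`.
-/

set_option autoImplicit false

namespace Pool.Agent.KS6_69.Lin
open Finset

/-- A finite model of `T_Lin` on the vertex set `Fin (n + 1)`: `E_k` holds on the tuples listing a
`k`-element member of `E` without repetition. -/
structure FM where
  n : ℕ
  E : Finset (Finset (Fin (n + 1)))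
  ne : ∅ ∉ E

def Iso (M N : FM) : Prop :=
  ∃ e : Fin (M.n + 1) ≃ Fin (N.n + 1), ∀ I, I ∈ M.E ↔ I.map e.toEmbedding ∈ N.E

/-- isomorphism classes of finite models -/
abbrev Cls : Type := Quot Iso

/-- `U` induces, in the model with edge predicate `E`, a submodel isomorphic to `M` -/
def Induces {V : Type} (M : FM) (E : Finset V → Prop) (U : Finset V) : Prop :=
  ∃ f : Fin (M.n + 1) ↪ V, univ.map f = U ∧ ∀ I, I ∈ M.E ↔ E (I.map f)

open Classical in
/-- the induced density `p(M, N)` -/
noncomputable def dens {V : Type} [Fintype V] (M : FM) (E : Finset V → Prop) : ℝ :=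
  (#{U ∈ powersetCard (M.n + 1) univ | Induces M E U} : ℝ) / (Fintype.card V).choose (M.n + 1)

/-- the edges of the model `M_A`, for a subset `A` of an abelian group `G` -/
def EA {G : Type} [AddCommGroup G] (A : Set G) (J : Finset G) : Prop :=
  J.Nonempty ∧ ∑ x ∈ J, x ∈ A

/-- the point `p(-, M_A)` -/
noncomputable def pt {G : Type} [AddCommGroup G] [Fintype G] (A : Set G) : Cls → ℝ :=
  fun c => dens c.out (EA A)

/-- `K`-lineons: the accumulation points of the set of all `p(-, M_A)`, `A ⊆ K^m`, `m ≥ 1`.
The lineons of the problem are the `ZMod 2`-lineons. -/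
def Lineon (K : Type) [AddCommGroup K] [Fintype K] (x : Cls → ℝ) : Prop :=
  AccPt x (Filter.principal {y | ∃ m, 1 ≤ m ∧ ∃ A : Set (Fin m → K), y = pt A})

/-- `e`-lineons: the accumulation points of the set of all `p(-, M_A)`, where `A` is a subset of a
finite abelian group `G` with `e G = 0`. -/
def ELineon (e : ℕ) (x : Cls → ℝ) : Prop :=
  AccPt x (Filter.principal {y | ∃ (G : Type) (_ : AddCommGroup G) (_ : Fintype G),
    (∀ g : G, e • g = 0) ∧ ∃ A : Set G, y = pt A})

/-- a code `(n, L)` of a model on `Fin (n + 1)`: `L` lists the edges -/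
abbrev Code : Type := ℕ × List (List ℕ)

def model (c : Code) : FM :=
  ⟨c.1, {I | I.Nonempty ∧ ∃ l ∈ c.2, ∀ i : Fin (c.1 + 1), i ∈ I ↔ (i : ℕ) ∈ l}, by simp⟩

/-- the isomorphism class with code `c` -/
def cls (c : Code) : Cls := Quot.mk _ (model c)

/-- polynomials with integer coefficients in the coordinates of `Cls → ℝ`: lists of terms
(coefficient, list of the variables of the monomial) -/
abbrev Poly : Type := List (ℤ × List Code)

/-- value of a polynomial at `x` -/
noncomputable def ev (P : Poly) (x : Cls → ℝ) : ℝ :=
  (P.map fun t => (t.1 : ℝ) * (t.2.map fun c => x (cls c)).prod).sum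

end Pool.Agent.KS6_69.Lin
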