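import Pool.Agent.KS6_69.Lin.Prob

set_option autoImplicit false

namespace Pool.Agent.KS6_69.Lin
open Finset Function BigOperators

variable {G : Type} [AddCommGroup G]

def FF (M : FM) (A : Set G) (x : Fin (M.n + 1) → G) : Prop :=
  ∃ e : Fin (M.n + 1) → Fin (M.n + 1), Injective e ∧
    ∀ I : Finset (Fin (M.n + 1)), I.Nonempty → (I ∈ M.E ↔ ∑ i ∈ I, x (e i) ∈ A)

open Classical in
/-- density with repetition allowed -/
noncomputable def q [Fintype G] (M : FM) (A : Set G) : ℝ := 𝔼 x, if FF M A x then (1 : ℝ) else 0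

lemma q_mem [Fintype G] (M : FM) (A : Set G) : 0 ≤ q M A ∧ q M A ≤ 1 :=
  ⟨expect_nonneg fun x _ => by positivity,
    expect_le univ_nonempty fun x _ => by split_ifs <;> norm_num⟩

lemma q_comap {H : Type} [AddCommGroup H] [Fintype G] [Fintype H] (M : FM) (A : Set G)
    (f : H →+ G) (hf : Surjective f) : q M (f ⁻¹' A) = q M A := by
  classical
  let F : (Fin (M.n + 1) → H) →+ (Fin (M.n + 1) → G) :=
    { toFun := fun x i => f (x i)
      map_zero' := by ext; simp
      map_add' := fun x y => by ext; simp }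
  have hF : Surjective F := fun y => by
    choose s hs using hf
    exact ⟨fun i => s (y i), funext fun i => hs _⟩
  have := expect_hom F hF (fun y => if FF M A y then (1 : ℝ) else 0)
  unfold q
  rw [← this]
  refine expect_congr rfl fun x _ => ?_
  congr 1
  simp [FF, F, map_sum]

section
variable {R : Type} [CommRing R] [Fintype R] [DecidableEq R] [Nontrivial R]
variable [Fintype G] [Module R G]

variable (R) in
lemma sample {ι : Type} [Fintype ι] (M : ι → FM) {n K N : ℕ} (hn : 0 < n)
    (hK : ∀ i, (M i).n + 1 ≤ K)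
    (h : Fintype.card ι * N ^ 2 * (2 * K * Fintype.card R ^ (2 * K)) ≤ n) (A : Set G) :
    ∃ B : Set (Fin n → R), ∀ i, N * |q (M i) B - q (M i) A| ≤ 1 := by
  classical
  have hR : (1 : ℝ) ≤ Fintype.card R := by exact_mod_cast Fintype.card_pos
  have hn' : (0 : ℝ) < n := by exact_mod_cast hn
  have h1 : ∀ i, 𝔼 w : Fin n → G, (q (M i) ((lm w : (Fin n → R) →ₗ[R] G) ⁻¹' A) -
      q (M i) A) ^ 2 ≤ (2 * K) * (Fintype.card R : ℝ) ^ (2 * K) / n := by
    intro i
    have := var_le (R := R) hn (fun y : Fin ((M i).n + 1) → G =>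
      (if FF (M i) A y then (1 : ℝ) else 0) - q (M i) A)
      (fun y => by have := q_mem (M i) A; rw [abs_le]; split_ifs <;> constructor <;> linarith)
      (by rw [expect_sub_distrib, Fintype.expect_const]; exact sub_self _)
    refine le_trans (le_of_eq ?_) (this.trans ?_)
    · refine expect_congr rfl fun w _ => ?_
      rw [expect_sub_distrib, Fintype.expect_const]
      congr 2
      refine expect_congr rfl fun x _ => ?_
      congr 1
      simp [FF, map_sum]
    · have hKi : (((M i).n + 1 : ℕ) : ℝ) ≤ K := by exact_mod_cast hK i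
      gcongr
      exact hK i
  have h2 : 𝔼 w : Fin n → G, ∑ i, (q (M i) ((lm w : (Fin n → R) →ₗ[R] G) ⁻¹' A) -
      q (M i) A) ^ 2 ≤ Fintype.card ι * ((2 * K) * (Fintype.card R : ℝ) ^ (2 * K) / n) := by
    rw [expect_sum_comm]
    refine (sum_le_sum fun i _ => h1 i).trans (by simp)
  obtain ⟨w, -, hw⟩ := exists_le_of_expect_le univ_nonempty h2
  refine ⟨(lm w : (Fin n → R) →ₗ[R] G) ⁻¹' A, fun i => ?_⟩
  have h3 := (single_le_sum (f := fun i => (q (M i) ((lm w : (Fin n → R) →ₗ[R] G) ⁻¹' A) -
    q (M i) A) ^ 2) (fun _ _ => by positivity) (mem_univ i)).trans hw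
  have h4 : (Fintype.card ι : ℝ) * N ^ 2 * (2 * K * Fintype.card R ^ (2 * K)) ≤ n := by
    exact_mod_cast h
  refine abs_le_one_iff_mul_self_le_one.2 ?_ |> (le_abs_self _).trans
  calc _ = (N : ℝ) ^ 2 * (q (M i) ((lm w : (Fin n → R) →ₗ[R] G) ⁻¹' A) - q (M i) A) ^ 2 := by
        rw [← sq, mul_pow, sq_abs]
    _ ≤ N ^ 2 * (Fintype.card ι * ((2 * K) * (Fintype.card R : ℝ) ^ (2 * K) / n)) := by gcongr
    _ = Fintype.card ι * N ^ 2 * (2 * K * Fintype.card R ^ (2 * K)) / n := by ring
    _ ≤ 1 := by rw [div_le_one (by positivity)]; exact h4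

end

lemma card_inj {V : Type} [DecidableEq V] (k : ℕ) (P : Finset V → Prop)
    (S : Finset (Fin k → V)) (hS : ∀ x, x ∈ S ↔ Injective x ∧ P (univ.image x))
    (T : Finset (Finset V)) (hT : ∀ U, U ∈ T ↔ #U = k ∧ P U) : #S = k.factorial * #T := by
  rw [card_eq_sum_card_fiberwise (f := fun x => univ.image x) (t := T), mul_comm, sum_const_nat]
  · intro U hU
    rw [hT] at hU
    have : Fintype.card (Fin k ↪ U) = k.factorial := by
      rw [Fintype.card_embedding_eq, Fintype.card_coe, hU.1, Fintype.card_fin,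
        Nat.descFactorial_self]
    rw [← this, ← card_univ]
    symm
    refine card_bij (fun f _ => fun i => (f i : V)) (fun f _ => ?_) (fun f _ g _ h => ?_)
      (fun x hx => ?_)
    · have hi : Injective fun i => (f i : V) := Subtype.val_injective.comp f.injective
      have : univ.image (fun i => (f i : V)) = U :=
        eq_of_subset_of_card_le (fun v hv => by
          obtain ⟨i, -, rfl⟩ := mem_image.1 hv; exact (f i).2)
          (by rw [card_image_of_injective _ hi]; simp [hU.1])
      simp only [mem_filter, hS, true_and, this, hi, hU.2]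
    · ext i; exact congrFun h i
    · simp only [mem_filter, hS] at hx
      exact ⟨⟨fun i => ⟨x i, hx.2 ▸ mem_image_of_mem _ (mem_univ i)⟩,
        fun i j h => hx.1.1 (congrArg Subtype.val h)⟩, mem_univ _, rfl⟩
  · intro x hx
    simp only [mem_coe, hS, hT] at hx ⊢
    exact ⟨by rw [card_image_of_injective _ hx.1]; simp, hx.2⟩

lemma FF_iff [DecidableEq G] (M : FM) (A : Set G) (x : Fin (M.n + 1) → G) (hx : Injective x) :
    FF M A x ↔ Induces M (EA A) (univ.image x) := by
  have key : ∀ (f : Fin (M.n + 1) ↪ G), (∀ I, I ∈ M.E ↔ EA A (I.map f)) ↔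
      ∀ I : Finset (Fin (M.n + 1)), I.Nonempty → (I ∈ M.E ↔ ∑ i ∈ I, f i ∈ A) := by
    intro f
    refine forall_congr' fun I => ?_
    rcases I.eq_empty_or_nonempty with rfl | h
    · simp [EA, M.ne]
    · simp [EA, h]
  constructor
  · rintro ⟨e, he, h⟩
    refine ⟨⟨x ∘ e, hx.comp he⟩, ?_, (key _).2 h⟩
    rw [map_eq_image]
    show univ.image (x ∘ e) = _
    rw [← image_image, image_univ_of_surjective (Finite.surjective_of_injective he)]
  · rintro ⟨f, hf, h⟩
    have : ∀ i, ∃ j, x j = f i := fun i => by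
      have := mem_map_of_mem f (mem_univ i)
      rw [hf] at this
      simpa using this
    choose e he using this
    refine ⟨e, fun i j h => f.injective (by rw [← he, ← he, h]), ?_⟩
    simp_rw [he]
    exact (key f).1 h

lemma ratio {a b a' b' : ℝ} (ha : 0 ≤ a) (hab : a ≤ b) (ha' : 0 ≤ a') (hab' : a' ≤ b')
    (h : 0 < b + b') : |a / b - (a + a') / (b + b')| ≤ b' / (b + b') := by
  have h1 : 0 ≤ a / b := div_nonneg ha (ha.trans hab)
  have h2 : a / b ≤ 1 := div_le_one_of_le₀ hab (ha.trans hab)
  have h3 : a / b * b = a := by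
    rcases eq_or_ne b 0 with rfl | hb
    · linarith
    · field_simp
  have : a / b - (a + a') / (b + b') = (a / b * b' - a') / (b + b') := by
    rw [eq_div_iff h.ne', sub_mul, div_mul_cancel₀ _ h.ne']; linarith
  rw [this, abs_div, abs_of_pos h]
  gcongr
  rw [abs_le]
  constructor <;> nlinarith

lemma dens_q [Fintype G] (M : FM) (A : Set G) :
    |dens M (EA A) - q M A| ≤ ((M.n + 1 : ℕ) : ℝ) ^ 2 / Fintype.card G := by
  classical
  have a3 : #((univ.filter (FF M A)).filter Injective) = (M.n + 1).factorial *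
      #{U ∈ powersetCard (M.n + 1) univ | Induces M (EA A) U} :=
    card_inj _ (Induces M (EA A)) _ (fun x => by
      simp only [mem_filter, mem_univ, true_and]
      exact ⟨fun h => ⟨h.2, (FF_iff M A x h.2).1 h.1⟩, fun h => ⟨(FF_iff M A x h.1).2 h.2, h.1⟩⟩)
      _ fun U => by simp
  have a2 : #{x : Fin (M.n + 1) → G | Injective x} = (M.n + 1).factorial *
      (Fintype.card G).choose (M.n + 1) := by
    rw [← card_univ, ← card_powersetCard]
    exact card_inj _ (fun _ => True) _ (fun x => by simp) _ fun U => by simp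
  have hf : ((M.n + 1).factorial : ℝ) ≠ 0 := by positivity
  have d : dens M (EA A) = (#((univ.filter (FF M A)).filter Injective) : ℝ) /
      #{x : Fin (M.n + 1) → G | Injective x} := by
    rw [a3, a2, dens]
    push_cast
    rw [mul_div_mul_left _ _ hf]
  have t : (#{x : Fin (M.n + 1) → G | Injective x} : ℝ) +
      #{x : Fin (M.n + 1) → G | ¬ Injective x} = #(univ : Finset (Fin (M.n + 1) → G)) := by
    exact_mod_cast card_filter_add_card_filter_not _
  have e : q M A = ((#((univ.filter (FF M A)).filter Injective) : ℝ) +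
      #((univ.filter (FF M A)).filter fun x => ¬ Injective x)) /
      (#{x : Fin (M.n + 1) → G | Injective x} + #{x : Fin (M.n + 1) → G | ¬ Injective x}) := by
    rw [t, q, expect_eq_sum_div_card, sum_boole, ← Nat.cast_add, card_filter_add_card_filter_not]
  rw [d, e]
  refine (ratio (by positivity) ?_ (by positivity) ?_ ?_).trans ?_
  · exact_mod_cast card_le_card (filter_subset_filter _ (subset_univ _))
  · exact_mod_cast card_le_card (filter_subset_filter _ (subset_univ _))
  · rw [t]; exact_mod_cast card_pos.2 univ_nonempty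
  · refine le_trans ?_ (noninj_le (G := G) (M.n + 1))
    rw [t, ← sum_boole, ← expect_eq_sum_div_card]
    refine expect_le_expect fun x _ => ?_
    split_ifs <;> first | contradiction | norm_num

lemma dens_iso {V : Type} [Fintype V] (E : Finset V → Prop) {M N : FM} (h : Iso M N) :
    dens M E = dens N E := by
  classical
  obtain ⟨e, he⟩ := h
  have hn : M.n + 1 = N.n + 1 := by simpa using Fintype.card_congr e
  have : ∀ U, Induces M E U ↔ Induces N E U := fun U => by
    constructor
    · rintro ⟨f, h1, h2⟩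
      refine ⟨e.symm.toEmbedding.trans f, by rw [← map_map, map_univ_equiv, h1], fun I => ?_⟩
      rw [← map_map, ← h2, he, map_map]; simp
    · rintro ⟨f, h1, h2⟩
      refine ⟨e.toEmbedding.trans f, by rw [← map_map, map_univ_equiv, h1], fun I => ?_⟩
      rw [← map_map, ← h2, he]
  unfold dens
  rw [hn, filter_congr fun U _ => this U]

lemma dens_mem {V : Type} [Fintype V] (M : FM) (E : Finset V → Prop) :
    0 ≤ dens M E ∧ dens M E ≤ 1 := by
  classical
  unfold dens
  refine ⟨by positivity, div_le_one_of_le₀ ?_ (by positivity)⟩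
  rw [← card_univ, ← card_powersetCard]
  exact_mod_cast card_le_card (filter_subset _ _)

/-- densities do not change under a bijection of the vertex sets -/
lemma dens_equiv {V W : Type} [Fintype V] [Fintype W] (M : FM) (σ : V ≃ W) (E : Finset V → Prop) :
    dens M E = dens M (fun J : Finset W => E (J.map σ.symm.toEmbedding)) := by
  classical
  unfold dens
  rw [Fintype.card_congr σ]
  congr 2
  refine card_bij (fun U _ => U.map σ.toEmbedding) ?_ ?_ ?_
  · intro U hU
    simp only [mem_filter, mem_powersetCard, subset_univ, true_and, card_map] at hU ⊢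
    refine ⟨hU.1, ?_⟩
    obtain ⟨f, h1, h2⟩ := hU.2
    refine ⟨f.trans σ.toEmbedding, by rw [← map_map, h1], fun I => ?_⟩
    beta_reduce
    rw [h2, map_map]
    have : (f.trans σ.toEmbedding).trans σ.symm.toEmbedding = f := by ext; simp
    rw [this]
  · intro U _ U' _ h
    exact map_injective _ h
  · intro U hU
    simp only [mem_filter, mem_powersetCard, subset_univ, true_and] at hU
    refine ⟨U.map σ.symm.toEmbedding, ?_, ?_⟩
    · simp only [mem_filter, mem_powersetCard, subset_univ, true_and, card_map]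
      refine ⟨hU.1, ?_⟩
      obtain ⟨f, h1, h2⟩ := hU.2
      refine ⟨f.trans σ.symm.toEmbedding, by rw [← map_map, h1], fun I => ?_⟩
      rw [h2]
      beta_reduce
      rw [map_map]
    · rw [map_map]
      have : σ.symm.toEmbedding.trans σ.toEmbedding = Embedding.refl _ := by ext; simp
      rw [this, map_refl]

lemma pt_mk [Fintype G] (A : Set G) (M : FM) : pt A (Quot.mk _ M) = dens M (EA A) :=
  congrArg (Quot.lift (fun M => dens M (EA A)) fun _ _ h => dens_iso _ h)
    (Quot.out_eq (Quot.mk Iso M))

lemma cls_surj : Surjective cls := by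
  rintro ⟨n, E, h⟩
  refine ⟨(n, E.toList.map fun I => I.toList.map Fin.val), congrArg (Quot.mk _) ?_⟩
  unfold model
  congr 1
  ext I
  simp only [mem_filter, mem_univ, true_and, List.mem_map, mem_toList]
  constructor
  · rintro ⟨-, _, ⟨J, hJ, rfl⟩, h2⟩
    have : I = J := by ext i; rw [h2]; simp [Fin.val_inj]
    exact this ▸ hJ
  · intro hI
    exact ⟨nonempty_iff_ne_empty.2 fun e => h (e ▸ hI), _, ⟨I, hI, rfl⟩,
      fun i => by simp [Fin.val_inj]⟩

lemma FF_iso {M N : FM} (A : Set G) (x : Fin (M.n + 1) → G)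
    (hx : FF M A x) (σ : Fin (M.n + 1) ≃ Fin (N.n + 1))
    (hσ : ∀ I, I ∈ M.E ↔ I.map σ.toEmbedding ∈ N.E) : FF N A (x ∘ σ.symm) := by
  obtain ⟨e, he, h2⟩ := hx
  refine ⟨fun j => σ (e (σ.symm j)), fun a b hab => by simpa using he (σ.injective hab),
    fun J hJ => ?_⟩
  have h3 : J = (J.map σ.symm.toEmbedding).map σ.toEmbedding := by
    rw [map_map]
    have : σ.symm.toEmbedding.trans σ.toEmbedding = Embedding.refl _ := by ext; simp
    rw [this, map_refl]
  have h4 := h2 (J.map σ.symm.toEmbedding) (by simpa using hJ)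
  rw [hσ, ← h3] at h4
  rw [h4, sum_map]
  simp

lemma q_iso [Fintype G] {M N : FM} (h : Iso M N) (A : Set G) : q M A = q N A := by
  classical
  obtain ⟨σ, hσ⟩ := h
  unfold q
  refine Fintype.expect_equiv (Equiv.arrowCongr σ (Equiv.refl G)) _ _ fun x => ?_
  have : FF M A x ↔ FF N A ((Equiv.arrowCongr σ (Equiv.refl G)) x) := by
    constructor
    · intro hx
      exact FF_iso A x hx σ hσ
    · intro hx
      have := FF_iso A _ hx σ.symm (fun I => by
        rw [hσ, map_map]
        have : σ.symm.toEmbedding.trans σ.toEmbedding = Embedding.refl _ := by ext; simp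
        rw [this, map_refl])
      convert this using 1
      funext i
      simp [Equiv.arrowCongr]
  simp only [this]

/-- the point of densities with repetition -/
noncomputable def qpt [Fintype G] (A : Set G) : Cls → ℝ := fun c => q c.out A

lemma qpt_mk [Fintype G] (A : Set G) (M : FM) : qpt A (Quot.mk _ M) = q M A :=
  congrArg (Quot.lift (fun M => q M A) fun _ _ h => q_iso h _) (Quot.out_eq (Quot.mk Iso M))

lemma qpt_cls [Fintype G] (A : Set G) (c : Code) : qpt A (cls c) = q (model c) A := qpt_mk _ _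

lemma pt_cls [Fintype G] (A : Set G) (c : Code) : pt A (cls c) = dens (model c) (EA A) :=
  pt_mk _ _

lemma pt_ne {H : Type} [AddCommGroup H] [Fintype G] [Fintype H]
    (h : Fintype.card G < Fintype.card H) (A : Set G) (A' : Set H) : pt A' ≠ pt A := by
  classical
  obtain ⟨f⟩ : Nonempty (Fin (Fintype.card G + 1) ↪ H) :=
    Function.Embedding.nonempty_of_card_le (by rw [Fintype.card_fin]; exact h)
  let M : FM := ⟨Fintype.card G, {I | EA A' (I.map f)}, by simp [EA]⟩
  intro e
  have := congrFun e (Quot.mk _ M)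
  rw [pt_mk, pt_mk, dens, dens, Nat.choose_eq_zero_of_lt (n := Fintype.card G) (by simp [M])]
    at this
  simp only [Nat.cast_zero, div_zero, div_eq_zero_iff, Nat.cast_eq_zero, card_eq_zero] at this
  rcases this with h1 | h1
  · refine eq_empty_iff_forall_notMem.1 h1 (univ.map f) ?_
    simp only [mem_filter, mem_powersetCard, subset_univ, true_and]
    exact ⟨by simp [M], f, rfl, fun I => by simp [M]⟩
  · exact (Nat.choose_pos (show Fintype.card G + 1 ≤ Fintype.card H from h)).ne' h1

end Pool.Agent.KS6_69.Lin
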