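import Pool.Agent.KS6_69.Lin.Top
import Pool.Agent.KS6_69.Lin.Comp

set_option autoImplicit false

namespace Pool.Agent.KS6_69.Lin
open Finset Function BigOperators Filter Topology Pool.Agent.KS6_69.H37

section
variable {e : ℕ} [NeZero e] [Fact (1 < e)]

omit [Fact (1 < e)] in
lemma lt_posb (P : Poly) (N n β : ℕ) :
    3 * lip P * (e ^ n) ^ wt P + N * negv P (wt P) e n β < N * posv P (wt P) e n β ↔
      (3 * lip P : ℝ) < N * ev P (qpt (setB e n β)) := by
  have h := ev_qpt P (wt P) e n β (wtt_le P)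
  have he : (0 : ℝ) < ((e : ℝ) ^ n) ^ wt P := by
    have : (0 : ℝ) < e := by exact_mod_cast NeZero.pos e
    positivity
  rw [← mul_lt_mul_iff_left₀ he, mul_assoc (N : ℝ), h]
  rw [← Nat.cast_lt (α := ℝ)]
  push_cast
  constructor <;> intro h <;> linarith

lemma pos_of_posb {P : Poly} {N n K : ℕ} (h : posb e P N n K = true) {x : Cls → ℝ}
    (hx : ELineon e x) : 0 < ev P x := by
  simp only [posb, Bool.and_eq_true, decide_eq_true_eq, List.all_eq_true, List.mem_range] at h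
  obtain ⟨⟨⟨-, hK⟩, hn⟩, hβ⟩ := h
  obtain ⟨B, hB⟩ := approx hx (codes P) (N := N) (n := n) (K := K) (by omega) hK (by omega)
  obtain ⟨β, hβ1, rfl⟩ := setB_surj B
  have h1 := (lt_posb P N n β).1 (hβ β hβ1)
  have hN : 0 < N := by
    rcases Nat.eq_zero_or_pos N with h0 | h0
    · rw [h0] at h1
      have : (0 : ℝ) ≤ 3 * lip P := by positivity
      simp at h1
      linarith
    · exact h0
  have hN' : (0 : ℝ) < N := by exact_mod_cast hN
  have h2 := ev_lip (elineon_mem hx) (elineon_mem (elineon_qpt (setB e n β))) (δ := 3 / N) P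
    (fun t ht c hc => by
      have := hB c (List.mem_flatMap.2 ⟨t, ht, hc⟩)
      rw [qpt_cls, le_div_iff₀ hN']
      linarith)
  have h3 : (lip P : ℝ) * (3 / N) < ev P (qpt (setB e n β)) := by
    rw [mul_div_assoc', div_lt_iff₀ hN']
    linarith
  have h4 := (abs_le.1 h2).1
  linarith

lemma posb_of_pos {P : Poly} (h : ∀ x, ELineon e x → 0 < ev P x) :
    ∃ N n K, posb e P N n K = true := by
  have he : 1 < e := Fact.out
  have hne : ({y | ELineon e y} : Set (Cls → ℝ)).Nonempty :=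
    ⟨_, elineon_qpt (e := e) (n := 0) ∅⟩
  obtain ⟨x0, hx0, hmin⟩ := isCompact_elineon.exists_isMinOn hne (ev_cont P).continuousOn
  have h0 : 0 < ev P x0 := h x0 hx0
  obtain ⟨N, hN⟩ := exists_nat_gt ((3 * lip P : ℝ) / ev P x0)
  rw [div_lt_iff₀ h0] at hN
  let K := ((codes P).map fun c => c.1 + 1).sum
  refine ⟨N, (codes P).length * N ^ 2 * (2 * K * e ^ (2 * K)) + 1, K, ?_⟩
  simp only [posb, Bool.and_eq_true, decide_eq_true_eq, List.all_eq_true, List.mem_range]
  refine ⟨⟨⟨he, fun c hc => ?_⟩, le_refl _⟩, fun β _ => ?_⟩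
  · exact List.single_le_sum (l := (codes P).map fun c => c.1 + 1) (by simp) _
      (List.mem_map_of_mem (f := fun c : Code => c.1 + 1) hc)
  · rw [lt_posb]
    refine hN.trans_le ?_
    gcongr
    exact hmin (elineon_qpt _)

omit [Fact (1 < e)] in
lemma lt_negb (P : Poly) (n β : ℕ) :
    posv P (wt P) e n β < negv P (wt P) e n β ↔ ev P (qpt (setB e n β)) < 0 := by
  have h := ev_qpt P (wt P) e n β (wtt_le P)
  have he : (0 : ℝ) < ((e : ℝ) ^ n) ^ wt P := by
    have : (0 : ℝ) < e := by exact_mod_cast NeZero.pos e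
    positivity
  rw [← Nat.cast_lt (α := ℝ)]
  constructor
  · intro h1
    have : ev P (qpt (setB e n β)) * ((e : ℝ) ^ n) ^ wt P < 0 := by rw [h]; linarith
    by_contra h2
    have := mul_nonneg (not_lt.1 h2) he.le
    linarith
  · intro h1
    have := mul_neg_of_neg_of_pos h1 he
    rw [h] at this
    linarith

lemma neg_iff (P : Poly) : (∃ x, ELineon e x ∧ ev P x < 0) ↔ ∃ n β, negb e P n β = true := by
  have he : 1 < e := Fact.out
  constructor
  · rintro ⟨x, hx, h⟩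
    obtain ⟨n, B, hB⟩ := closure_approx hx
      ((isOpen_lt (ev_cont P) continuous_const).mem_nhds h)
    obtain ⟨β, -, rfl⟩ := setB_surj B
    refine ⟨n, β, ?_⟩
    simp only [negb, Bool.and_eq_true, decide_eq_true_eq]
    exact ⟨he, (lt_negb P n β).2 hB⟩
  · rintro ⟨n, β, h⟩
    simp only [negb, Bool.and_eq_true, decide_eq_true_eq] at h
    exact ⟨_, elineon_qpt _, (lt_negb P n β).1 h.2⟩

end

/-- separating polynomial -/
def sep (l : List (Code × ℤ)) (N : ℕ) : Poly :=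
  (-((l.length + 1 : ℕ) : ℤ), []) :: l.flatMap fun t =>
    [(((N ^ 2 : ℕ) : ℤ), [t.1, t.1]), (-(2 * N * t.2), [t.1]), (t.2 ^ 2, [])]

lemma ev_sep (l : List (Code × ℤ)) (N : ℕ) (x : Cls → ℝ) :
    ev (sep l N) x = (l.map fun t => ((N : ℝ) * x (cls t.1) - t.2) ^ 2).sum - (l.length + 1) := by
  have : ∀ l : List (Code × ℤ), ev (l.flatMap fun t => [(((N ^ 2 : ℕ) : ℤ), [t.1, t.1]),
      (-(2 * N * t.2), [t.1]), (t.2 ^ 2, [])]) x =
      (l.map fun t => ((N : ℝ) * x (cls t.1) - t.2) ^ 2).sum := by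
    intro l
    induction l with
    | nil => simp [ev]
    | cons t l ih =>
      simp only [ev, List.flatMap_cons, List.map_append, List.sum_append, List.map_cons,
        List.sum_cons] at ih ⊢
      rw [ih]; simp; ring
  rw [← this]
  simp [sep, ev]; ring

lemma separate {S : Set (Cls → ℝ)} (hS : IsClosed S) {x : Cls → ℝ} (hx : x ∉ S) :
    ∃ P : Poly, (∀ y ∈ S, 0 < ev P y) ∧ ev P x < 0 := by
  have hU : Sᶜ ∈ 𝓝 x := hS.isOpen_compl.mem_nhds hx
  rw [nhds_pi, mem_pi'] at hU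
  obtain ⟨I, t, ht, hI⟩ := hU
  have ev1 : ∀ᶠ N : ℕ in atTop, ∀ M ∈ I, Metric.ball (x M) ((#I + 5) / N) ⊆ t M := by
    refine (eventually_all_finset I).2 fun M _ => ?_
    obtain ⟨ε, hε, h⟩ := Metric.mem_nhds_iff.1 (ht M)
    exact ((tendsto_const_div_atTop_nhds_zero_nat _).eventually (ge_mem_nhds hε)).mono
      fun N hN => (Metric.ball_subset_ball hN).trans h
  obtain ⟨N, hN, hN1⟩ := (ev1.and (eventually_ge_atTop 1)).exists
  choose cd hcd using cls_surj
  let l : List (Code × ℤ) := I.toList.map fun M => (cd M, ⌊N * x M⌋)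
  have hl : l.length = #I := by simp [l]
  have fl : ∀ M, |N * x M - (⌊N * x M⌋ : ℤ)| ≤ 1 := fun M => by
    have h1 := Int.floor_le ((N : ℝ) * x M)
    have h2 := Int.lt_floor_add_one ((N : ℝ) * x M)
    rw [abs_le]; constructor <;> linarith
  have hN' : (0 : ℝ) < N := by exact_mod_cast hN1
  refine ⟨sep l N, fun y hy => ?_, ?_⟩
  · have : y ∉ Set.pi I t := fun h => hI h hy
    simp only [Set.mem_pi, not_forall, mem_coe] at this
    obtain ⟨M, hM, h⟩ := this
    have h1 : ((#I : ℝ) + 5) / N ≤ |y M - x M| := not_lt.1 fun h' => h (hN M hM h')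
    rw [div_le_iff₀' hN', ← Nat.abs_cast (R := ℝ) N, ← abs_mul, mul_sub] at h1
    have h3 := fl M
    have h2 : (#I : ℝ) + 1 ≤ |N * y M - (⌊N * x M⌋ : ℤ)| := by
      rw [abs_le] at h3
      rw [le_abs] at h1 ⊢
      rcases h1 with h1 | h1
      · left; linarith
      · right; linarith
    have h4 : (cd M, ⌊N * x M⌋) ∈ l := List.mem_map_of_mem (mem_toList.2 hM)
    have h5 := List.single_le_sum (l := l.map fun t => ((N : ℝ) * y (cls t.1) - t.2) ^ 2)
      (by simp only [List.mem_map]; rintro _ ⟨t, -, rfl⟩; positivity) _ (List.mem_map_of_mem h4)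
    rw [ev_sep, hl]
    simp only [hcd] at h5
    rw [← sq_abs] at h5
    have h0 : (0 : ℝ) ≤ #I := by positivity
    rcases h0.eq_or_lt with h0 | h0
    · -- impossible: `I` is nonempty
      have : (0 : ℝ) < #I := by exact_mod_cast card_pos.2 ⟨M, hM⟩
      linarith
    · nlinarith
  · have := List.sum_le_card_nsmul (l.map fun t => ((N : ℝ) * x (cls t.1) - t.2) ^ 2) 1 (by
      simp only [List.mem_map, l]
      rintro _ ⟨_, ⟨M, -, rfl⟩, rfl⟩
      rw [hcd]
      exact (sq_le_one_iff_abs_le_one _).2 (fl M))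
    rw [ev_sep]
    simp only [List.length_map, nsmul_eq_mul, mul_one] at this
    linarith

lemma re_pos : REPred fun p : ℕ × Poly => 2 ≤ p.1 ∧ ∀ x, ELineon p.1 x → 0 < ev p.2 x := by
  refine re_of_exists (fun (p : ℕ × Poly) (c : ℕ × ℕ × ℕ) => posb p.1 p.2 c.1 c.2.1 c.2.2)
    (by fun_prop) fun p => ?_
  constructor
  · rintro ⟨h2, h⟩
    haveI : NeZero p.1 := ⟨by omega⟩
    haveI : Fact (1 < p.1) := ⟨h2⟩
    obtain ⟨N, n, K, hh⟩ := posb_of_pos h
    exact ⟨(N, n, K), hh⟩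
  · rintro ⟨⟨N, n, K⟩, h⟩
    have h2 : 2 ≤ p.1 := by
      simp only [posb, Bool.and_eq_true, decide_eq_true_eq] at h
      exact h.1.1.1
    haveI : NeZero p.1 := ⟨by omega⟩
    haveI : Fact (1 < p.1) := ⟨h2⟩
    exact ⟨h2, fun x hx => pos_of_posb h hx⟩

lemma re_neg : REPred fun p : ℕ × Poly => 2 ≤ p.1 ∧ ∃ x, ELineon p.1 x ∧ ev p.2 x < 0 := by
  refine re_of_exists (fun (p : ℕ × Poly) (c : ℕ × ℕ) => negb p.1 p.2 c.1 c.2)
    (by fun_prop) fun p => ?_
  constructor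
  · rintro ⟨h2, h⟩
    haveI : NeZero p.1 := ⟨by omega⟩
    haveI : Fact (1 < p.1) := ⟨h2⟩
    obtain ⟨n, β, hh⟩ := (neg_iff p.2).1 h
    exact ⟨(n, β), hh⟩
  · rintro ⟨⟨n, β⟩, h⟩
    have h2 : 2 ≤ p.1 := by
      simp only [negb, Bool.and_eq_true, decide_eq_true_eq] at h
      exact h.1
    haveI : NeZero p.1 := ⟨by omega⟩
    haveI : Fact (1 < p.1) := ⟨h2⟩
    exact ⟨h2, (neg_iff p.2).2 ⟨n, β, h⟩⟩

end Pool.Agent.KS6_69.Lin
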