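import Pool.Agent.KS6_69.Lin.Final

set_option autoImplicit false

namespace Pool.Agent.KS6_69.Lin
open Finset Function BigOperators Filter Topology Pool.Agent.KS6_69.H37

section
variable {α : Type} [Primcodable α]

@[fun_prop] lemma ci_intsub {f g : α → ℕ} (h1 : CI ∅ f) (h2 : CI ∅ g) :
    CI ∅ fun a => (f a : ℤ) - (g a : ℤ) := by
  have h : Primrec fun p : ℕ × ℕ => (p.1 : ℤ) - (p.2 : ℤ) := by
    refine Primrec.encode_iff.1 ?_
    have h3 : Primrec fun p : ℕ × ℕ => cond (decide (p.2 ≤ p.1)) (2 * (p.1 - p.2))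
        (2 * (p.2 - p.1) - 1) :=
      Primrec.cond (Primrec.nat_le.comp Primrec.snd Primrec.fst).decide
        (Primrec.nat_mul.comp (Primrec.const 2) (Primrec.nat_sub.comp Primrec.fst Primrec.snd))
        (Primrec.nat_sub.comp (Primrec.nat_mul.comp (Primrec.const 2)
          (Primrec.nat_sub.comp Primrec.snd Primrec.fst)) (Primrec.const 1))
    refine h3.of_eq fun p => ?_
    rcases p with ⟨m, n⟩
    by_cases h : n ≤ m
    · obtain ⟨k, rfl⟩ := Nat.exists_eq_add_of_le h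
      simp only [h, decide_true, cond_true]
      have : ((n + k : ℕ) : ℤ) - (n : ℤ) = Int.ofNat k := by simp
      rw [this]
      show 2 * (n + k - n) = 2 * k
      omega
    · obtain ⟨k, hk⟩ := Nat.exists_eq_add_of_lt (not_le.1 h)
      subst hk
      simp only [h, decide_false, cond_false]
      have : (m : ℤ) - ((m + k + 1 : ℕ) : ℤ) = Int.negSucc k := by
        rw [Int.negSucc_eq]; push_cast; ring
      rw [this]
      show 2 * (m + k + 1 - m) - 1 = 2 * k + 1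
      omega
  exact CI.prim1 (p := fun p : ℕ × ℕ => (p.1 : ℤ) - (p.2 : ℤ)) h (h1.mk h2)

/-- the polynomial `N P + a - b` -/
def shift (P : Poly) (N a b : ℕ) : Poly :=
  ((a : ℤ) - (b : ℤ), []) :: P.map fun t =>
    (((N * t.1.toNat : ℕ) : ℤ) - ((N * (-t.1).toNat : ℕ) : ℤ), t.2)

@[fun_prop] lemma ci_shift {P : α → Poly} {N a b : α → ℕ} (h1 : CI ∅ P) (h2 : CI ∅ N)
    (h3 : CI ∅ a) (h4 : CI ∅ b) : CI ∅ fun x => shift (P x) (N x) (a x) (b x) := by
  unfold shift; fun_prop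

end

lemma ev_shift (P : Poly) (N a b : ℕ) (x : Cls → ℝ) :
    ev (shift P N a b) x = N * ev P x + (a - b) := by
  have : ∀ P : Poly, ev (P.map fun t =>
      (((N * t.1.toNat : ℕ) : ℤ) - ((N * (-t.1).toNat : ℕ) : ℤ), t.2)) x = N * ev P x := by
    intro P
    induction P with
    | nil => simp [ev]
    | cons t P ih =>
      simp only [ev, List.map_cons, List.sum_cons, List.map_map] at ih ⊢
      rw [ih]
      have h5 : (t.1 : ℝ) = (t.1.toNat : ℝ) - ((-t.1).toNat : ℝ) := by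
        exact_mod_cast (Int.toNat_sub_toNat_neg t.1).symm
      rw [h5]
      push_cast
      ring
  rw [← this]
  simp [shift, ev]
  ring

/-- minima of polynomials over the `e`-lineons can be computed, uniformly -/
lemma computable_min : ∃ f : ℕ × Poly × ℕ → ℤ, Computable f ∧
    ∀ e, 2 ≤ e → ∀ (P : Poly) (N : ℕ), ∃ x₀, ELineon e x₀ ∧
      (∀ y, ELineon e y → ev P x₀ ≤ ev P y) ∧ |N * ev P x₀ - f (e, P, N)| ≤ 1 := by
  let rel : ℕ × Poly × ℕ → ℤ → Prop := fun p m =>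
    (2 ≤ p.1 + 2 ∧ ∀ x, ELineon (p.1 + 2) x →
      0 < ev (shift p.2.1 p.2.2 (1 + (-m).toNat) m.toNat) x) ∧
    (2 ≤ p.1 + 2 ∧ ∃ x, ELineon (p.1 + 2) x ∧
      ev (shift p.2.1 p.2.2 (-m).toNat (m.toNat + 1)) x < 0)
  have hre : REPred fun q : (ℕ × Poly × ℕ) × ℤ => rel q.1 q.2 := by
    refine re_and ?_ ?_
    · exact REPred.comp' re_pos (g := fun q : (ℕ × Poly × ℕ) × ℤ =>
        (q.1.1 + 2, shift q.1.2.1 q.1.2.2 (1 + (-q.2).toNat) q.2.toNat)) (by fun_prop)
    · exact REPred.comp' re_neg (g := fun q : (ℕ × Poly × ℕ) × ℤ =>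
        (q.1.1 + 2, shift q.1.2.1 q.1.2.2 (-q.2).toNat (q.2.toNat + 1))) (by fun_prop)
  have hmin : ∀ e, 2 ≤ e → ∀ P : Poly, ∃ x₀, ELineon e x₀ ∧ ∀ y, ELineon e y → ev P x₀ ≤ ev P y := by
    intro e he P
    have : NeZero e := ⟨by omega⟩
    have : Fact (1 < e) := ⟨he⟩
    have hne : ({y | ELineon e y} : Set (Cls → ℝ)).Nonempty :=
      ⟨_, elineon_qpt (e := e) (n := 0) ∅⟩
    obtain ⟨x0, hx0, hm⟩ := isCompact_elineon.exists_isMinOn hne (ev_cont P).continuousOn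
    exact ⟨x0, hx0, fun y hy => hm hy⟩
  have cast : ∀ m : ℤ, (m : ℝ) = (m.toNat : ℝ) - ((-m).toNat : ℝ) := fun m => by
    exact_mod_cast (Int.toNat_sub_toNat_neg m).symm
  have htot : ∀ p, ∃ m, rel p m := by
    rintro ⟨e, P, N⟩
    obtain ⟨x0, hx0, hm⟩ := hmin (e + 2) (by omega) P
    have h1 := Int.floor_le ((N : ℝ) * ev P x0)
    have h2 := Int.lt_floor_add_one ((N : ℝ) * ev P x0)
    have h3 := cast ⌊(N : ℝ) * ev P x0⌋
    refine ⟨⌊(N : ℝ) * ev P x0⌋, ⟨by omega, fun x hx => ?_⟩, by omega, x0, hx0, ?_⟩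
    · rw [ev_shift]
      have h4 : (N : ℝ) * ev P x0 ≤ N * ev P x :=
        mul_le_mul_of_nonneg_left (hm x hx) (by positivity)
      push_cast
      linarith
    · rw [ev_shift]
      push_cast
      linarith
  obtain ⟨f, hf, h⟩ := re_choice hre htot
  refine ⟨fun p => f (p.1 - 2, p.2), CI.computable (by fun_prop), fun e he P N => ?_⟩
  obtain ⟨x0, hx0, hm⟩ := hmin e he P
  refine ⟨x0, hx0, hm, ?_⟩
  obtain ⟨⟨-, h1⟩, -, x, hx, h2⟩ := h (e - 2, P, N)
  have hee : e - 2 + 2 = e := by omega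
  simp only [hee] at h1 hx
  have h1 := h1 x0 hx0
  rw [ev_shift] at h1 h2
  have h3 := cast (f (e - 2, P, N))
  have h4 : (N : ℝ) * ev P x0 ≤ N * ev P x :=
    mul_le_mul_of_nonneg_left (hm x hx) (by positivity)
  push_cast at h1 h2
  simp only
  rw [abs_le]
  constructor <;> linarith

end Pool.Agent.KS6_69.Lin
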