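import Pool.Agent.KS6_69.Lin.Defs

set_option autoImplicit false

namespace Pool.Agent.KS6_69.Lin
open Finset Function BigOperators

lemma expect_hom {A B : Type} [AddCommGroup A] [AddCommGroup B] [Fintype A] [Fintype B]
    (f : A →+ B) (hf : Surjective f) (g : B → ℝ) : 𝔼 a, g (f a) = 𝔼 b, g b := by
  choose s hs using hf
  have h1 : ∀ b, 𝔼 a, g (f a) = 𝔼 a, g (f a + b) := fun b =>
    (Fintype.expect_equiv (Equiv.addRight (s b)) _ _ fun a => by simp [hs]).symm
  have h2 : ∀ a, 𝔼 b, g (f a + b) = 𝔼 b, g b := fun a =>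
    Fintype.expect_equiv (Equiv.addLeft (f a)) _ _ fun b => by simp
  calc 𝔼 a, g (f a) = 𝔼 b : B, 𝔼 a, g (f a + b) := by simp_rw [← h1]; rw [Fintype.expect_const]
    _ = 𝔼 a, 𝔼 b : B, g (f a + b) := expect_comm _ _ _
    _ = _ := by simp_rw [h2]; rw [Fintype.expect_const]

lemma pow_bound (Q : ℝ) (hQ : 1 ≤ Q) (n : ℕ) : n * (Q - 1) ^ n ≤ Q * Q ^ n := by
  induction n with
  | zero => simp; linarith
  | succ n ih =>
    have h1 : (Q - 1) ^ (n + 1) ≤ Q ^ (n + 1) := by gcongr <;> linarith
    have h2 : (0 : ℝ) ≤ Q - 1 := by linarith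
    have h3 := mul_le_mul_of_nonneg_left ih h2
    push_cast
    calc ((n : ℝ) + 1) * (Q - 1) ^ (n + 1) = (Q - 1) * (n * (Q - 1) ^ n) + (Q - 1) ^ (n + 1) := by
          ring
      _ ≤ (Q - 1) * (Q * Q ^ n) + Q ^ (n + 1) := by linarith
      _ = _ := by ring

section
variable {R : Type} [CommRing R] [Fintype R] [DecidableEq R] [Nontrivial R]

/-- every standard basis column occurs among the columns of `z` -/
def Good {ι : Type} [DecidableEq ι] {n : ℕ} (z : ι → Fin n → R) : Prop :=
  ∀ i, ∃ j, (fun i' => z i' j) = Pi.single i 1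

open Classical in
lemma bad_le {ι : Type} [Fintype ι] [DecidableEq ι] (n : ℕ) (hn : 0 < n) :
    𝔼 z : ι → Fin n → R, (if Good z then (0 : ℝ) else 1) ≤
      Fintype.card ι * (Fintype.card R : ℝ) ^ Fintype.card ι / n := by
  set Q : ℝ := (Fintype.card R : ℝ) ^ Fintype.card ι with hQ
  have hR : (1 : ℝ) ≤ Fintype.card R := by exact_mod_cast Fintype.card_pos
  have hQ1 : 1 ≤ Q := one_le_pow₀ hR
  have hn' : (0 : ℝ) < n := by exact_mod_cast hn
  have h1 : ∀ v : ι → R,
      𝔼 z : ι → Fin n → R, (if ∀ j, (fun i' => z i' j) ≠ v then (1 : ℝ) else 0) ≤ Q / n := by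
    intro v
    have e1 : 𝔼 z : ι → Fin n → R, (if ∀ j, (fun i' => z i' j) ≠ v then (1 : ℝ) else 0) =
        𝔼 u : Fin n → ι → R, (if ∀ j, u j ≠ v then (1 : ℝ) else 0) :=
      Fintype.expect_equiv (Equiv.piComm _) _ _ fun z => rfl
    rw [e1, expect_eq_sum_div_card, sum_boole]
    have e2 : (univ.filter fun u : Fin n → ι → R => ∀ j, u j ≠ v) =
        Fintype.piFinset fun _ => univ.erase v := by
      ext u; simp
    rw [e2, Fintype.card_piFinset, card_univ, Fintype.card_fun, Fintype.card_fun,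
      Fintype.card_fin]
    simp only [prod_const, card_univ, Fintype.card_fin, card_erase_of_mem (mem_univ v),
      Fintype.card_fun]
    have h3 : (((Fintype.card R ^ Fintype.card ι - 1 : ℕ) : ℝ)) = Q - 1 := by
      rw [Nat.cast_sub (Nat.one_le_pow _ _ Fintype.card_pos)]
      push_cast; rfl
    rw [Nat.cast_pow, h3]
    push_cast
    rw [← hQ, div_le_div_iff₀ (by positivity) hn']
    have := pow_bound Q hQ1 n
    linarith
  calc _ ≤ 𝔼 z : ι → Fin n → R, ∑ i : ι,
        (if ∀ j, (fun i' => z i' j) ≠ Pi.single i (1 : R) then (1 : ℝ) else 0) := by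
        refine expect_le_expect fun z _ => ?_
        split_ifs with h
        · positivity
        · simp only [Good, not_forall, not_exists] at h
          obtain ⟨i, hi⟩ := h
          refine le_trans ?_ (single_le_sum (f := fun i : ι =>
            if ∀ j, (fun i' => z i' j) ≠ Pi.single i (1 : R) then (1 : ℝ) else 0)
            (fun _ _ => by positivity) (mem_univ i))
          rw [if_pos hi]
    _ = ∑ i : ι, 𝔼 z : ι → Fin n → R,
        (if ∀ j, (fun i' => z i' j) ≠ Pi.single i (1 : R) then (1 : ℝ) else 0) :=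
        expect_sum_comm _ _ _
    _ ≤ ∑ i : ι, Q / n := sum_le_sum fun i _ => h1 _
    _ = _ := by simp [mul_div_assoc]

variable {G : Type} [AddCommGroup G] [Fintype G] [Module R G]

/-- the linear map with columns `w` -/
def lm {n : ℕ} (w : Fin n → G) : (Fin n → R) →ₗ[R] G := Fintype.linearCombination R w

lemma expect_lm {ι : Type} [Fintype ι] [DecidableEq ι] {n : ℕ} (z : ι → Fin n → R)
    (hz : Good z) (g : (ι → G) → ℝ) :
    𝔼 w : Fin n → G, g (fun i => lm w (z i)) = 𝔼 y, g y := by
  let f : (Fin n → G) →+ (ι → G) :=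
    { toFun := fun w i => lm w (z i)
      map_zero' := by ext i; simp [lm, Fintype.linearCombination_apply]
      map_add' := fun x y => by
        funext i; simp [lm, Fintype.linearCombination_apply, sum_add_distrib] }
  refine expect_hom f (fun y => ?_) g
  choose j hj using hz
  refine ⟨fun l => ∑ i, if j i = l then y i else 0, funext fun i' => ?_⟩
  show lm _ (z i') = y i'
  rw [lm, Fintype.linearCombination_apply]
  simp only [smul_sum, smul_ite, smul_zero]
  rw [sum_comm]
  simp only [sum_ite_eq, mem_univ, if_true]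
  have : ∀ i, z i' (j i) = if i' = i then 1 else 0 := fun i => by
    have := congrFun (hj i) i'
    simpa [Pi.single_apply] using this
  simp [this]

lemma var_le {k n : ℕ} (hn : 0 < n) (g : (Fin k → G) → ℝ) (h1 : ∀ y, |g y| ≤ 1)
    (h0 : 𝔼 y, g y = 0) :
    𝔼 w : Fin n → G, (𝔼 x : Fin k → Fin n → R, g fun i => lm w (x i)) ^ 2 ≤
      (2 * k) * (Fintype.card R : ℝ) ^ (2 * k) / n := by
  classical
  have e1 : ∀ {V : Type} [Fintype V] (u : (Fin k → V) → ℝ), (𝔼 x, u x) ^ 2 =
      𝔼 z : Fin k ⊕ Fin k → V, u (fun i => z (.inl i)) * u (fun i => z (.inr i)) := by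
    intro V _ u
    rw [sq, Fintype.expect_mul_expect, ← expect_product', univ_product_univ]
    exact (Fintype.expect_equiv (Equiv.sumArrowEquivProdArrow _ _ _) _ _ fun z => rfl).symm
  simp_rw [e1]
  rw [expect_comm]
  refine le_trans (expect_le_expect fun z _ => ?_)
    ((bad_le (R := R) (ι := Fin k ⊕ Fin k) n hn).trans ?_)
  · split_ifs with h
    · rw [expect_lm z h (fun y => g (fun i => y (.inl i)) * g (fun i => y (.inr i))), ← e1, h0]
      simp
    · refine expect_le univ_nonempty fun w _ => (le_abs_self _).trans ?_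
      rw [abs_mul]
      exact mul_le_one₀ (h1 _) (abs_nonneg _) (h1 _)
  · rw [Fintype.card_sum, Fintype.card_fin, ← two_mul]
    push_cast
    exact le_refl _

end

open Classical in
lemma noninj_le {G : Type} [AddCommGroup G] [Fintype G] (k : ℕ) :
    𝔼 x : Fin k → G, (if Injective x then (0 : ℝ) else 1) ≤ k ^ 2 / Fintype.card G := by
  have h1 : ∀ p : Fin k × Fin k, 𝔼 x : Fin k → G,
      (if p.1 ≠ p.2 ∧ x p.1 = x p.2 then (1 : ℝ) else 0) ≤ 1 / Fintype.card G := by
    intro p
    by_cases hp : p.1 = p.2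
    · simp [hp]
    · let f : (Fin k → G) →+ G :=
        { toFun := fun x => x p.1 - x p.2
          map_zero' := by simp
          map_add' := fun x y => by simp only [Pi.add_apply]; abel }
      have hf : Surjective f := fun v => ⟨Pi.single p.1 v, by
        show (Pi.single p.1 v : Fin k → G) p.1 - (Pi.single p.1 v : Fin k → G) p.2 = v
        rw [Pi.single_eq_same, Pi.single_eq_of_ne (Ne.symm hp), sub_zero]⟩
      have := expect_hom f hf (fun v => if v = 0 then (1 : ℝ) else 0)
      have e : ∀ x : Fin k → G, (if f x = 0 then (1 : ℝ) else 0) =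
          if p.1 ≠ p.2 ∧ x p.1 = x p.2 then (1 : ℝ) else 0 := fun x => by
        have : f x = 0 ↔ x p.1 = x p.2 := sub_eq_zero
        simp [this, hp]
      simp_rw [e] at this
      rw [this, expect_eq_sum_div_card]
      simp
  calc _ ≤ 𝔼 x : Fin k → G, ∑ p : Fin k × Fin k,
        (if p.1 ≠ p.2 ∧ x p.1 = x p.2 then (1 : ℝ) else 0) := by
        refine expect_le_expect fun x _ => ?_
        split_ifs with h
        · positivity
        · simp only [Injective, not_forall] at h
          obtain ⟨a, b, h1, h2⟩ := h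
          refine le_trans ?_ (single_le_sum (f := fun p : Fin k × Fin k =>
            if p.1 ≠ p.2 ∧ x p.1 = x p.2 then (1 : ℝ) else 0)
            (fun _ _ => by positivity) (mem_univ (a, b)))
          simp [h1, h2]
    _ = ∑ p : Fin k × Fin k, 𝔼 x : Fin k → G,
        (if p.1 ≠ p.2 ∧ x p.1 = x p.2 then (1 : ℝ) else 0) := expect_sum_comm _ _ _
    _ ≤ ∑ p : Fin k × Fin k, (1 : ℝ) / Fintype.card G := sum_le_sum fun p _ => h1 p
    _ = _ := by simp [sq, div_eq_mul_inv]

end Pool.Agent.KS6_69.Lin
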