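import Mathlib

set_option autoImplicit false

namespace Pool.Agent.KS6_69.Lin
open Function

/-- a finite abelian group of exponent `e` has a homomorphism onto `ZMod e` -/
theorem exists_surj (K : Type) [AddCommGroup K] [Finite K] (e : ℕ) [NeZero e]
    (he : AddMonoid.exponent K = e) : ∃ π : K →+ ZMod e, Surjective π := by
  classical
  let M := Multiplicative (ZMod e)
  have hexp : Monoid.exponent (Multiplicative K) = e := by
    rw [Monoid.exponent_multiplicative, he]
  have : NeZero (Monoid.exponent (Multiplicative K)) := by rw [hexp]; infer_instance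
  have : HasEnoughRootsOfUnity M (Monoid.exponent (Multiplicative K)) := by
    rw [hexp]
    refine ⟨⟨Multiplicative.ofAdd 1, ?_⟩, ?_⟩
    · have : orderOf (Multiplicative.ofAdd (1 : ZMod e)) = e := by
        rw [orderOf_ofAdd_eq_addOrderOf, ZMod.addOrderOf_one]
      have h2 := IsPrimitiveRoot.orderOf (Multiplicative.ofAdd (1 : ZMod e))
      rwa [this] at h2
    · haveI : IsCyclic Mˣ := isCyclic_of_surjective (toUnits (G := M)) (toUnits (G := M)).surjective
      infer_instance
  obtain ⟨Φ⟩ := CommGroup.monoidHom_mulEquiv_of_hasEnoughRootsOfUnity (Multiplicative K) M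
  obtain ⟨g, hg⟩ := Monoid.exists_orderOf_eq_exponent
    (G := Multiplicative K) (Monoid.exponent_ne_zero.1 (NeZero.ne _))
  set χ := Φ.symm g with hχ
  have hord : orderOf χ = e := by
    rw [hχ, MulEquiv.orderOf_eq, hg, hexp]
  -- the range of `χ` is everything
  have hcard : Nat.card Mˣ = e := by
    rw [← Nat.card_congr (toUnits (G := M)).toEquiv]
    simp [M]
  have : Finite Mˣ := Finite.of_equiv _ (toUnits (G := M)).toEquiv
  have hdvd : orderOf χ ∣ Nat.card χ.range := by
    rw [orderOf_dvd_iff_pow_eq_one]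
    refine MonoidHom.ext fun x => ?_
    have : (⟨χ x, x, rfl⟩ : χ.range) ^ Nat.card χ.range = 1 := pow_card_eq_one'
    have h2 := congrArg Subtype.val this
    simpa using h2
  have hrange : χ.range = ⊤ :=
    Subgroup.eq_top_of_card_eq _ (Nat.dvd_antisymm (Subgroup.card_subgroup_dvd_card _)
      ((hcard.trans hord.symm).dvd.trans hdvd))
  have hsurj : Surjective χ := MonoidHom.range_eq_top.1 hrange
  refine ⟨MonoidHom.toAdditive ((toUnits (G := M)).symm.toMonoidHom.comp χ), fun y => ?_⟩
  obtain ⟨x, hx⟩ := hsurj (toUnits (Multiplicative.ofAdd y))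
  refine ⟨x.toAdd, ?_⟩
  show Multiplicative.toAdd ((toUnits (G := M)).symm (χ x)) = y
  rw [hx]; simp

end Pool.Agent.KS6_69.Lin
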