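import Pool.Agent.KS6_69.Lin.Dens

set_option autoImplicit false

namespace Pool.Agent.KS6_69.Lin
open Finset Function BigOperators Filter Topology

/-- the points `p(-, N)` with `N` a structure on fewer than `b` vertices -/
def smallPts (b : ℕ) : Set (Cls → ℝ) :=
  ⋃ N ∈ Set.Iio b, Set.range fun (E : Set (Finset (Fin N))) => fun c : Cls =>
    dens c.out (fun J => J ∈ E)

lemma small_finite (b : ℕ) : (smallPts b).Finite :=
  (Set.finite_Iio _).biUnion fun _ _ => Set.finite_range _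

lemma mem_small {G : Type} [AddCommGroup G] [Fintype G] (A : Set G) {b : ℕ}
    (h : Fintype.card G < b) : pt A ∈ smallPts b := by
  refine Set.mem_biUnion (x := Fintype.card G) h
    ⟨{J | EA A (J.map (Fintype.equivFin G).symm.toEmbedding)}, ?_⟩
  funext c
  exact (dens_equiv c.out (Fintype.equivFin G) (EA A)).symm

lemma ELineon.big {e : ℕ} {x : Cls → ℝ} (hx : ELineon e x) (b : ℕ) :
    AccPt x (𝓟 {y | ∃ (G : Type) (_ : AddCommGroup G) (_ : Fintype G),
      (∀ g : G, e • g = 0) ∧ b ≤ Fintype.card G ∧ ∃ A : Set G, y = pt A}) := by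
  have : AccPt x (𝓟 ({y | ∃ (G : Type) (_ : AddCommGroup G) (_ : Fintype G),
      (∀ g : G, e • g = 0) ∧ b ≤ Fintype.card G ∧ ∃ A : Set G, y = pt A} ∪ smallPts b)) :=
    AccPt.mono hx (principal_mono.2 (by
      rintro _ ⟨G, i1, i2, hG, A, rfl⟩
      by_cases hm : b ≤ Fintype.card G
      · exact .inl ⟨G, i1, i2, hG, hm, A, rfl⟩
      · exact .inr (mem_small A (not_le.1 hm))))
  rw [← sup_principal, accPt_sup] at this
  rcases this with h | h
  · exact h
  · exact absurd (small_finite b) (Set.Infinite.of_accPt h)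

section
variable {e : ℕ} [NeZero e] [Fact (1 < e)]

lemma approx {x : Cls → ℝ} (hx : ELineon e x) (l : List Code) {N n K : ℕ} (hn : 0 < n)
    (hK : ∀ c ∈ l, c.1 + 1 ≤ K) (h : l.length * N ^ 2 * (2 * K * e ^ (2 * K)) ≤ n) :
    ∃ B : Set (Fin n → ZMod e), ∀ c ∈ l, N * |x (cls c) - q (model c) B| ≤ 3 := by
  have hU : ∀ᶠ y in 𝓝 x, ∀ c ∈ {c | c ∈ l}, (N : ℝ) * |x (cls c) - y (cls c)| < 1 := by
    refine (eventually_all_finite l.finite_toSet).2 fun c _ => ?_
    have hc : Continuous fun y : Cls → ℝ => (N : ℝ) * |x (cls c) - y (cls c)| := by fun_prop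
    refine (hc.tendsto x).eventually_lt_const ?_
    simp
  obtain ⟨y, hy, G, i1, i2, hG, hb, A, rfl⟩ :=
    mem_closure_iff_nhds.1 (mem_closure_iff_clusterPt.2 (hx.big (N * K ^ 2 + 1)).clusterPt) _ hU
  letI : Module (ZMod e) G := AddCommGroup.zmodModule hG
  obtain ⟨B, hB⟩ := sample (ZMod e) (fun i : Fin l.length => model (l.get i)) (n := n) (K := K)
    (N := N) hn (fun i => hK _ (l.get_mem i)) (by simpa [ZMod.card] using h) A
  refine ⟨B, fun c hc => ?_⟩
  obtain ⟨i, rfl⟩ := List.get_of_mem hc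
  have h1 := hB i
  have h2 := hy (l.get i) hc
  have h3 := dens_q (model (l.get i)) A
  rw [pt_cls] at h2
  have hcard : (0 : ℝ) < Fintype.card G := by exact_mod_cast Fintype.card_pos
  have h4 : (N : ℝ) * |dens (model (l.get i)) (EA A) - q (model (l.get i)) A| ≤ 1 := by
    refine (mul_le_mul_of_nonneg_left h3 (by positivity)).trans ?_
    rw [← mul_div_assoc, div_le_one hcard]
    have : N * ((model (l.get i)).n + 1) ^ 2 ≤ N * K ^ 2 :=
      Nat.mul_le_mul_left _ (Nat.pow_le_pow_left (hK _ hc) 2)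
    exact_mod_cast this.trans ((Nat.le_succ _).trans hb)
  have hN : (0 : ℝ) ≤ N := by positivity
  calc (N : ℝ) * |x (cls (l.get i)) - q (model (l.get i)) B|
      ≤ N * (|x (cls (l.get i)) - dens (model (l.get i)) (EA A)| +
        |dens (model (l.get i)) (EA A) - q (model (l.get i)) A| +
        |q (model (l.get i)) B - q (model (l.get i)) A|) := by
        refine mul_le_mul_of_nonneg_left ?_ hN
        rw [abs_sub_comm (q (model (l.get i)) B)]
        exact (abs_sub_le _ (q (model (l.get i)) A) _).trans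
          (add_le_add_left (abs_sub_le _ _ _) _)
    _ ≤ 3 := by linarith

lemma acc_qpt {K : Type} [AddCommGroup K] [Fintype K] (π : K →+ ZMod e) (hπ : Surjective π)
    {n : ℕ} (B : Set (Fin n → ZMod e)) : Lineon K (qpt B) := by
  have he : 1 < e := Fact.out
  have hcard : 2 ≤ Fintype.card K := by
    have := Fintype.card_le_of_surjective π hπ
    rw [ZMod.card] at this
    omega
  let F : ∀ m, (Fin (n + 1 + m) → K) →+ (Fin n → ZMod e) := fun m =>
    { toFun := fun v j => π (v (Fin.castLE (by omega) j))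
      map_zero' := by ext; simp
      map_add' := fun x y => by ext; simp }
  have hF : ∀ m, Surjective (F m) := fun m y => by
    choose s hs using hπ
    refine ⟨fun i => if h : i.1 < n then s (y ⟨i.1, h⟩) else 0, funext fun j => ?_⟩
    show π _ = _
    simp [hs]
  let u : ℕ → Cls → ℝ := fun m => pt (F m ⁻¹' B)
  have hu : Tendsto u atTop (𝓝 (qpt B)) := by
    refine tendsto_pi_nhds.2 fun c => tendsto_iff_dist_tendsto_zero.2 ?_
    have hlim : Tendsto (fun m : ℕ => ((c.out.n + 1 : ℕ) : ℝ) ^ 2 * (1 / ((m : ℝ) + 1))) atTop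
        (𝓝 0) := by
      simpa using tendsto_one_div_add_atTop_nhds_zero_nat.const_mul (((c.out.n + 1 : ℕ) : ℝ) ^ 2)
    refine squeeze_zero (fun _ => dist_nonneg) (fun m => ?_) hlim
    have h1 := dens_q c.out (F m ⁻¹' B)
    rw [q_comap c.out B (F m) (hF m)] at h1
    refine (show dist (u m c) (qpt B c) ≤ _ from h1).trans ?_
    rw [mul_one_div]
    have : m + 1 ≤ Fintype.card (Fin (n + 1 + m) → K) := by
      rw [Fintype.card_fun, Fintype.card_fin]
      calc m + 1 ≤ n + 1 + m := by omega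
        _ ≤ 2 ^ (n + 1 + m) := Nat.lt_two_pow_self.le
        _ ≤ _ := Nat.pow_le_pow_left hcard _
    have h2 : ((m : ℝ) + 1) ≤ Fintype.card (Fin (n + 1 + m) → K) := by exact_mod_cast this
    gcongr
  have hne : ∀ᶠ m in atTop, u m ≠ qpt B := by
    have hlt : ∀ a b : ℕ, a < b → u b ≠ u a := fun a b hab => by
      refine pt_ne ?_ _ _
      rw [Fintype.card_fun, Fintype.card_fun, Fintype.card_fin, Fintype.card_fin]
      exact Nat.pow_lt_pow_right (by omega) (by omega)
    by_cases h : ∃ a, u a = qpt B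
    · obtain ⟨a, ha⟩ := h
      filter_upwards [eventually_gt_atTop a] with m hm
      rw [← ha]
      exact hlt a m hm
    · exact Eventually.of_forall fun m hm => h ⟨m, hm⟩
  refine accPt_iff_frequently.2 (hu.frequently (hne.frequently.mono fun m hm => ⟨hm, ?_⟩))
  exact ⟨n + 1 + m, by omega, _, rfl⟩

lemma mem_of_approx {K : Type} [AddCommGroup K] [Fintype K] (π : K →+ ZMod e)
    (hπ : Surjective π) {x : Cls → ℝ}
    (h : ∀ (l : List Code) (N : ℕ), ∃ n, ∃ B : Set (Fin n → ZMod e),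
      ∀ c ∈ l, N * |x (cls c) - q (model c) B| ≤ 3) : Lineon K x := by
  have hcl : IsClosed {y | Lineon K y} := isClosed_derivedSet _
  refine hcl.closure_subset (mem_closure_iff_nhds.2 fun U hU => ?_)
  rw [nhds_pi, mem_pi'] at hU
  obtain ⟨I, t, ht, hI⟩ := hU
  have ev1 : ∀ᶠ N : ℕ in atTop, ∀ M ∈ I, Metric.ball (x M) (4 / N) ⊆ t M := by
    refine (eventually_all_finset I).2 fun M _ => ?_
    obtain ⟨ε, hε, h⟩ := Metric.mem_nhds_iff.1 (ht M)
    exact ((tendsto_const_div_atTop_nhds_zero_nat _).eventually (ge_mem_nhds hε)).mono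
      fun N hN => (Metric.ball_subset_ball hN).trans h
  obtain ⟨N, hN, hN1⟩ := (ev1.and (eventually_ge_atTop 1)).exists
  choose cd hcd using cls_surj
  obtain ⟨n, B, hB⟩ := h (I.toList.map cd) N
  refine ⟨qpt B, hI fun M hM => hN M hM ?_, acc_qpt π hπ B⟩
  have h1 := hB (cd M) (List.mem_map_of_mem (mem_toList.2 hM))
  have hN' : (0 : ℝ) < N := by exact_mod_cast hN1
  rw [← qpt_cls, hcd] at h1
  rw [Metric.mem_ball, dist_comm, Real.dist_eq, lt_div_iff₀ hN']
  linarith

lemma lineon_of_elineon {K : Type} [AddCommGroup K] [Fintype K] (π : K →+ ZMod e)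
    (hπ : Surjective π) {x : Cls → ℝ} (hx : ELineon e x) : Lineon K x := by
  refine mem_of_approx π hπ fun l N => ?_
  obtain ⟨K, hK⟩ : ∃ K, ∀ c ∈ l, c.1 + 1 ≤ K :=
    ⟨(l.map fun c => c.1 + 1).sum, fun c hc =>
      List.single_le_sum (by simp) _ (List.mem_map_of_mem hc)⟩
  exact ⟨l.length * N ^ 2 * (2 * K * e ^ (2 * K)) + 1,
    approx hx l (Nat.succ_pos _) hK (Nat.le_succ _)⟩

omit [NeZero e] [Fact (1 < e)] in
lemma elineon_of_lineon {K : Type} [AddCommGroup K] [Fintype K] (hK : ∀ g : K, e • g = 0)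
    {x : Cls → ℝ} (hx : Lineon K x) : ELineon e x :=
  AccPt.mono hx (principal_mono.2 (by
    rintro _ ⟨m, -, A, rfl⟩
    exact ⟨Fin m → K, inferInstance, inferInstance, fun g => by ext; simp [hK], A, rfl⟩))

lemma elineon_qpt {n : ℕ} (B : Set (Fin n → ZMod e)) : ELineon e (qpt B) :=
  elineon_of_lineon (K := ZMod e) (fun g => by simp) (acc_qpt (AddMonoidHom.id _) surjective_id B)

omit [NeZero e] [Fact (1 < e)] in
lemma isClosed_elineon : IsClosed {y | ELineon e y} := isClosed_derivedSet _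

omit [NeZero e] [Fact (1 < e)] in
lemma elineon_mem {x : Cls → ℝ} (hx : ELineon e x) (M : Cls) : 0 ≤ x M ∧ x M ≤ 1 := by
  have hcl : IsClosed {y : Cls → ℝ | 0 ≤ y M ∧ y M ≤ 1} := by
    refine (isClosed_le continuous_const (continuous_apply M)).inter
      (isClosed_le (continuous_apply M) continuous_const)
  refine hcl.closure_subset ?_
  refine closure_mono ?_ (mem_closure_iff_clusterPt.2 hx.clusterPt)
  rintro _ ⟨G, i1, i2, -, A, rfl⟩
  exact dens_mem _ _

omit [NeZero e] [Fact (1 < e)] in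
lemma isCompact_elineon : IsCompact {y | ELineon e y} := by
  refine (isCompact_univ_pi fun _ : Cls => isCompact_Icc (a := (0 : ℝ)) (b := 1)).of_isClosed_subset
    isClosed_elineon fun y hy M _ => ?_
  exact elineon_mem hy M

lemma closure_approx {x : Cls → ℝ} (hx : ELineon e x) {U : Set (Cls → ℝ)} (hU : U ∈ 𝓝 x) :
    ∃ n, ∃ B : Set (Fin n → ZMod e), qpt B ∈ U := by
  rw [nhds_pi, mem_pi'] at hU
  obtain ⟨I, t, ht, hI⟩ := hU
  have ev1 : ∀ᶠ N : ℕ in atTop, ∀ M ∈ I, Metric.ball (x M) (4 / N) ⊆ t M := by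
    refine (eventually_all_finset I).2 fun M _ => ?_
    obtain ⟨ε, hε, h⟩ := Metric.mem_nhds_iff.1 (ht M)
    exact ((tendsto_const_div_atTop_nhds_zero_nat _).eventually (ge_mem_nhds hε)).mono
      fun N hN => (Metric.ball_subset_ball hN).trans h
  obtain ⟨N, hN, hN1⟩ := (ev1.and (eventually_ge_atTop 1)).exists
  choose cd hcd using cls_surj
  obtain ⟨K, hK⟩ : ∃ K, ∀ c ∈ I.toList.map cd, c.1 + 1 ≤ K :=
    ⟨((I.toList.map cd).map fun c => c.1 + 1).sum, fun c hc =>
      List.single_le_sum (by simp) _ (List.mem_map_of_mem hc)⟩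
  obtain ⟨B, hB⟩ := approx hx (I.toList.map cd) (N := N) (K := K)
    (n := (I.toList.map cd).length * N ^ 2 * (2 * K * e ^ (2 * K)) + 1)
    (Nat.succ_pos _) hK (Nat.le_succ _)
  refine ⟨_, B, hI fun M hM => hN M hM ?_⟩
  have h1 := hB (cd M) (List.mem_map_of_mem (mem_toList.2 hM))
  have hN' : (0 : ℝ) < N := by exact_mod_cast hN1
  rw [← qpt_cls, hcd] at h1
  rw [Metric.mem_ball, dist_comm, Real.dist_eq, lt_div_iff₀ hN']
  linarith

end

end Pool.Agent.KS6_69.Lin
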